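import Mathlib

/-!
# Homogeneous colourings of cubic graphs of large girth: definitions

`f` orients the two-factor, `mt` is the mate in the perfect matching.  The cycles of `f` are cut
into blocks of odd length; `st v` is the first vertex of the block of `v`, `pos v` the position
of `v` in its block.
-/

namespace Pool.Agent.H32.Hom

variable {V : Type}

/-- `f` and `mt` describe the cubic graph `G`: the three neighbours of `v` are `f v`,
`f.symm v` and `mt v`, pairwise distinct. -/
structure Desc (G : SimpleGraph V) (f : Equiv.Perm V) (mt : V → V) : Prop where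
  invol : ∀ v, mt (mt v) = v
  nbr : ∀ v w, G.Adj v w ↔ w = f v ∨ w = f.symm v ∨ w = mt v
  d1 : ∀ v, f v ≠ f.symm v
  d2 : ∀ v, f v ≠ mt v
  d3 : ∀ v, f.symm v ≠ mt v

/-- No short closed reduced words with at most three letters `mt`. -/
structure Far (f : Equiv.Perm V) (mt : V → V) (n : ℤ) : Prop where
  invol : ∀ v, mt (mt v) = v
  w0 : ∀ (v : V) (a : ℤ), a ≠ 0 → |a| ≤ n → (f ^ a) v ≠ v
  w1 : ∀ (v : V) (a : ℤ), |a| ≤ n → (f ^ a) (mt v) ≠ v
  w2 : ∀ (v : V) (a b : ℤ), a ≠ 0 → |a| ≤ n → |b| ≤ n → (f ^ b) (mt ((f ^ a) (mt v))) ≠ v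
  w3 : ∀ (v : V) (a b c : ℤ), a ≠ 0 → b ≠ 0 → |a| ≤ n → |b| ≤ n → |c| ≤ n →
    (f ^ c) (mt ((f ^ b) (mt ((f ^ a) (mt v))))) ≠ v

/-- A division of the cycles of `f` into blocks of odd length between `L` and `3 L`. -/
structure Blocks (f : Equiv.Perm V) (L : ℕ) (st : V → V) (pos : V → ℕ) : Prop where
  st_st : ∀ v, st (st v) = st v
  pos_st : ∀ v, pos (st v) = 0
  eq_pow : ∀ v, (f ^ (pos v)) (st v) = v
  pos_lt : ∀ v, pos v < 3 * L
  next : ∀ v, (st (f v) = st v ∧ pos (f v) = pos v + 1) ∨
    (st (f v) = f v ∧ pos (f v) = 0 ∧ Odd (pos v + 1) ∧ L ≤ pos v + 1)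

/-- The start of the block before the block of `v`. -/
def bk (f : Equiv.Perm V) (st : V → V) (v : V) : V := st (f.symm (st v))

/-- `b` is one of the three blocks of `x`: its own block and the two blocks before it. -/
def In3 (f : Equiv.Perm V) (st : V → V) (x b : V) : Prop :=
  b = st x ∨ b = bk f st x ∨ b = bk f st (bk f st x)

/-- Two blocks are related if they occur together around a vertex and its mate. -/
def Rel (f : Equiv.Perm V) (mt st : V → V) (a b : V) : Prop :=
  ∃ x, In3 f st x a ∧ (In3 f st x b ∨ In3 f st (mt x) b)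

/-- `v` lies in the window of its block: the window of the block of `v` consists of the
positions `t` with `t / w = p (st v)`. -/
def Win (st : V → V) (pos : V → ℕ) (w : ℕ) (p : V → ℕ) (v : V) : Prop :=
  pos v / w = p (st v)

/-- The block which gives the colour of a vertex `v` outside the windows. -/
def sg (f : Equiv.Perm V) (st : V → V) (pos : V → ℕ) (w : ℕ) (p : V → ℕ) (v : V) : V :=
  if Odd (pos v) then bk f st v
  else if pos v / w < p (st v) then bk f st (bk f st v) else st v

/-- The block whose colour is seen at position `i` of the block of `s`, through the mate. -/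
def src (f : Equiv.Perm V) (mt st : V → V) (pos : V → ℕ) (w : ℕ) (p : V → ℕ) (s : V) (i : ℕ) :
    V := sg f st pos w p (mt ((f ^ i) s))

/-- The positions `i < j` of the window of `s` see the same colour `ξ (src s i)`, and this colour
is not seen by anything that matters between them. -/
structure GoodPair {q : ℕ} (f : Equiv.Perm V) (mt st : V → V) (pos : V → ℕ) (w : ℕ) (p : V → ℕ)
    (ξ : V → Fin q) (s : V) (i j : ℕ) : Prop where
  oi : Odd i
  oj : Odd j
  lt : i < j
  wi : i / w = p s
  wj : j / w = p s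
  ni : ¬ Win st pos w p (mt ((f ^ i) s))
  nj : ¬ Win st pos w p (mt ((f ^ j) s))
  eq : ξ (src f mt st pos w p s j) = ξ (src f mt st pos w p s i)
  ri : ∀ b, b ≠ src f mt st pos w p s i → Rel f mt st (src f mt st pos w p s i) b →
    ξ b ≠ ξ (src f mt st pos w p s i)
  rj : ∀ b, b ≠ src f mt st pos w p s j → Rel f mt st (src f mt st pos w p s j) b →
    ξ b ≠ ξ (src f mt st pos w p s i)
  mid : ∀ t, i < t → t < j → ∀ b, In3 f st (mt ((f ^ t) s)) b →
    ξ b ≠ ξ (src f mt st pos w p s i)
  win : ∀ t, i < t → t < j → Win st pos w p (mt ((f ^ t) s)) →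
    ∀ y, st y = st (mt ((f ^ t) s)) → Win st pos w p y → ¬ Win st pos w p (mt y) →
    ξ (sg f st pos w p (mt y)) ≠ ξ (src f mt st pos w p s i)

/-- The conclusion: `c` is a two-homogeneous colouring. -/
def Homog {C : Type} (f : Equiv.Perm V) (mt : V → V) (c : V → C) : Prop :=
  ∀ v, c (f v) ≠ c v ∧ c (mt v) ≠ c v ∧
    ((c (f v) = c (f.symm v) ∧ c (mt v) ≠ c (f v)) ∨
      (c (mt v) = c (f v) ∧ c (f.symm v) ≠ c (f v)) ∨
      (c (mt v) = c (f.symm v) ∧ c (f v) ≠ c (f.symm v)))

end Pool.Agent.H32.Hom
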