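import Mathlib
import Pool.Agent.H32.Hom.Defs

/-!
# Homogeneous colourings: existence of the blocks
-/

namespace Pool.Agent.H32.Hom

variable {V : Type}

/-- All gaps of `S` are odd and at least `L`. -/
def Gapped (f : Equiv.Perm V) (L : ℕ) (S : Set V) : Prop :=
  ∀ v ∈ S, ∃ k : ℕ, Odd k ∧ L ≤ k ∧ (f ^ k) v ∈ S ∧ ∀ j : ℕ, 0 < j → j < k → (f ^ j) v ∉ S

theorem pow_sub_eq {f : Equiv.Perm V} {a b : ℕ} {u v : V} (h : (f ^ a) u = (f ^ b) v)
    (hab : a ≤ b) : u = (f ^ (b - a)) v := by
  have h1 : (f ^ b) v = (f ^ a) ((f ^ (b - a)) v) := by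
    rw [← Equiv.Perm.mul_apply, ← pow_add]; congr 2; omega
  rw [h1] at h
  exact (f ^ a).injective h

theorem symm_pow_apply (f : Equiv.Perm V) (k : ℕ) (v : V) : (f ^ k) ((f.symm ^ k) v) = v := by
  induction k generalizing v with
  | zero => rfl
  | succ k ih =>
    have h1 : (f.symm ^ (k + 1)) v = (f.symm) ((f.symm ^ k) v) := by rw [pow_succ']; rfl
    have h2 : (f ^ (k + 1)) ((f.symm ^ (k + 1)) v) = (f ^ k) (f ((f.symm ^ (k + 1)) v)) := by
      rw [pow_succ]; rfl
    rw [h2, h1, Equiv.apply_symm_apply, ih]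

theorem eq_symm_pow {f : Equiv.Perm V} {k : ℕ} {u v : V} (h : (f ^ k) u = v) :
    u = (f.symm ^ k) v := by
  apply (f ^ k).injective
  rw [symm_pow_apply, h]

/-- Extend a gapped set to an orbit which it misses. -/
theorem gapped_extend [Finite V] {f : Equiv.Perm V} {L : ℕ} (hL : Odd L)
    (hcyc : ∀ (v : V) (k : ℕ), 0 < k → k < 3 * L → (f ^ k) v ≠ v) {S : Set V}
    (hS : Gapped f L S) (v : V) (hv : ∀ k : ℕ, (f.symm ^ k) v ∉ S) :
    ∃ S' : Set V, S ⊆ S' ∧ v ∈ S' ∧ Gapped f L S' := by
  classical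
  have hL0 : 0 < L := hL.pos
  have hex : ∃ n : ℕ, 0 < n ∧ (f ^ n) v = v := by
    refine ⟨orderOf f, ?_, ?_⟩
    · exact orderOf_pos f
    · rw [pow_orderOf_eq_one]; rfl
  obtain ⟨hn0, hn⟩ := Nat.find_spec hex
  set n := Nat.find hex with hndef
  have hmin : ∀ j : ℕ, 0 < j → j < n → (f ^ j) v ≠ v := by
    intro j h0 hj h
    exact Nat.find_min hex hj ⟨h0, h⟩
  have hn3 : 3 * L ≤ n := by
    by_contra h
    exact hcyc v n hn0 (by omega) hn
  -- forward iterates of v are not in S
  have hfw : ∀ j : ℕ, (f ^ j) v ∉ S := by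
    intro j hj
    have h1 : (f ^ (j % n)) v = (f ^ j) v := by
      have h2 : ∀ q : ℕ, (f ^ (n * q)) v = v := by
        intro q
        induction q with
        | zero => rfl
        | succ q ih =>
          have : n * (q + 1) = n * q + n := by ring
          rw [this, pow_add, Equiv.Perm.mul_apply, hn, ih]
      conv_rhs => rw [← Nat.mod_add_div j n, pow_add, Equiv.Perm.mul_apply, h2]
    have h3 : (f ^ (n - j % n)) ((f ^ (j % n)) v) = v := by
      rw [← Equiv.Perm.mul_apply, ← pow_add]
      have := Nat.mod_lt j hn0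
      rw [show n - j % n + j % n = n by omega]; exact hn
    have h4 := eq_symm_pow h3
    rw [h1] at h4
    exact hv _ (h4 ▸ hj)
  have hu : ∀ u ∈ S, ∀ j i : ℕ, (f ^ j) u ≠ (f ^ i) v := by
    intro u hu j i h
    have h1 : (f ^ ((n - i % n) + j)) u = (f ^ ((n - i % n) + i)) v := by
      rw [pow_add, pow_add, Equiv.Perm.mul_apply, Equiv.Perm.mul_apply, h]
    have h2 : (f ^ ((n - i % n) + i)) v = v := by
      have h3 : (n - i % n) + i = n * (i / n + 1) := by
        have h5 := Nat.mod_lt i hn0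
        have h4 := Nat.mod_add_div i n
        have h6 : n * (i / n + 1) = n * (i / n) + n := by ring
        omega
      rw [h3]
      have h2 : ∀ q : ℕ, (f ^ (n * q)) v = v := by
        intro q
        induction q with
        | zero => rfl
        | succ q ih =>
          have : n * (q + 1) = n * q + n := by ring
          rw [this, pow_add, Equiv.Perm.mul_apply, hn, ih]
      exact h2 _
    rw [h2] at h1
    exact hv _ (eq_symm_pow h1 ▸ hu)
  rcases Nat.even_or_odd n with hne | hno
  · -- even length: add v and f^L v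
    refine ⟨insert v (insert ((f ^ L) v) S), ?_, Set.mem_insert _ _, ?_⟩
    · exact (Set.subset_insert _ _).trans (Set.subset_insert _ _)
    · rintro u (rfl | rfl | hu')
      · refine ⟨L, hL, le_rfl, Or.inr (Or.inl rfl), ?_⟩
        rintro j hj0 hjL (h | h | h)
        · exact hcyc _ j hj0 (by omega) h
        · have h1 := pow_sub_eq (a := j) (b := L) h hjL.le
          exact hcyc _ (L - j) (by omega) (by omega) h1.symm
        · exact hfw j h
      · refine ⟨n - L, ?_, by omega, Or.inl ?_, ?_⟩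
        · obtain ⟨a, ha⟩ := hne
          obtain ⟨b, hb⟩ := hL
          exact ⟨a - b - 1, by omega⟩
        · rw [← Equiv.Perm.mul_apply, ← pow_add]
          rw [show n - L + L = n by omega]; exact hn
        · intro j hj0 hjn h
          rw [← Equiv.Perm.mul_apply, ← pow_add] at h
          rcases h with h | h | h
          · exact hmin (j + L) (by omega) (by omega) h
          · have h1 := pow_sub_eq (a := L) (b := j + L) h.symm (by omega)
            rw [Nat.add_sub_cancel] at h1
            exact hmin j hj0 (by omega) h1.symm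
          · exact hfw _ h
      · obtain ⟨k, hk1, hk2, hk3, hk4⟩ := hS u hu'
        refine ⟨k, hk1, hk2, Or.inr (Or.inr hk3), ?_⟩
        rintro j hj0 hjk (h | h | h)
        · exact hu u hu' j 0 h
        · exact hu u hu' j L h
        · exact hk4 j hj0 hjk h
  · -- odd length: add v
    refine ⟨insert v S, Set.subset_insert _ _, Set.mem_insert _ _, ?_⟩
    rintro u (rfl | hu')
    · refine ⟨n, hno, by omega, Or.inl hn, ?_⟩
      rintro j hj0 hjn (h | h)
      · exact hmin j hj0 hjn h
      · exact hfw j h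
    · obtain ⟨k, hk1, hk2, hk3, hk4⟩ := hS u hu'
      refine ⟨k, hk1, hk2, Or.inr hk3, ?_⟩
      rintro j hj0 hjk (h | h)
      · exact hu u hu' j 0 h
      · exact hk4 j hj0 hjk h

/-- Refine a gapped set with a long gap. -/
theorem gapped_refine {f : Equiv.Perm V} {L : ℕ} (hL : Odd L)
    (hcyc : ∀ (v : V) (k : ℕ), 0 < k → k < 3 * L → (f ^ k) v ≠ v) {S : Set V}
    (hS : Gapped f L S) (v : V) (hv : v ∈ S) (k : ℕ) (hk : Odd k) (hk3 : 3 * L ≤ k)
    (hkS : (f ^ k) v ∈ S) (hj : ∀ j : ℕ, 0 < j → j < k → (f ^ j) v ∉ S) :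
    ∃ S' : Set V, S ⊆ S' ∧ (f ^ L) v ∈ S' ∧ (f ^ L) v ∉ S ∧ Gapped f L S' := by
  have hL0 : 0 < L := hL.pos
  refine ⟨insert ((f ^ L) v) (insert ((f ^ (2 * L)) v) S), ?_, Set.mem_insert _ _,
    hj L hL0 (by omega), ?_⟩
  · exact (Set.subset_insert _ _).trans (Set.subset_insert _ _)
  · rintro u (rfl | rfl | hu)
    · refine ⟨L, hL, le_rfl, Or.inr (Or.inl ?_), ?_⟩
      · rw [← Equiv.Perm.mul_apply, ← pow_add]; congr 2; ring
      · intro j hj0 hjL h
        rw [← Equiv.Perm.mul_apply, ← pow_add] at h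
        rcases h with h | h | h
        · have h1 := pow_sub_eq (a := L) (b := j + L) h.symm (by omega)
          exact hcyc v (j + L - L) (by omega) (by omega) h1.symm
        · have h1 := pow_sub_eq (a := j + L) (b := 2 * L) h (by omega)
          exact hcyc v (2 * L - (j + L)) (by omega) (by omega) h1.symm
        · exact hj _ (by omega) (by omega) h
    · refine ⟨k - 2 * L, ?_, by omega, Or.inr (Or.inr ?_), ?_⟩
      · obtain ⟨a, ha⟩ := hk
        exact ⟨a - L, by omega⟩
      · rw [← Equiv.Perm.mul_apply, ← pow_add, show k - 2 * L + 2 * L = k by omega]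
        exact hkS
      · intro j hj0 hjk h
        rw [← Equiv.Perm.mul_apply, ← pow_add] at h
        rcases h with h | h | h
        · have h1 := pow_sub_eq (a := L) (b := j + 2 * L) h.symm (by omega)
          exact hj (j + 2 * L - L) (by omega) (by omega) (h1 ▸ hv)
        · have h1 := pow_sub_eq (a := 2 * L) (b := j + 2 * L) h.symm (by omega)
          exact hj (j + 2 * L - 2 * L) (by omega) (by omega) (h1 ▸ hv)
        · exact hj _ (by omega) (by omega) h
    · by_cases huv : u = v
      · subst huv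
        refine ⟨L, hL, le_rfl, Or.inl rfl, ?_⟩
        rintro j hj0 hjL (h | h | h)
        · have h1 := pow_sub_eq (a := j) (b := L) h (by omega)
          exact hcyc u (L - j) (by omega) (by omega) h1.symm
        · have h1 := pow_sub_eq (a := j) (b := 2 * L) h (by omega)
          exact hcyc u (2 * L - j) (by omega) (by omega) h1.symm
        · exact hj _ hj0 (by omega) h
      · obtain ⟨l, hl1, hl2, hl3, hl4⟩ := hS u hu
        refine ⟨l, hl1, hl2, Or.inr (Or.inr hl3), ?_⟩
        have key : ∀ j M : ℕ, 0 < j → j < l → M < k → (f ^ j) u ≠ (f ^ M) v := by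
          intro j M hj0 hjl hMk h
          rcases le_total j M with hjM | hjM
          · have h1 := pow_sub_eq h hjM
            rcases Nat.eq_zero_or_pos (M - j) with h0 | h0
            · rw [h0] at h1; exact huv (by simpa using h1)
            · exact hj _ h0 (by omega) (h1 ▸ hu)
          · have h1 := pow_sub_eq h.symm hjM
            rcases Nat.eq_zero_or_pos (j - M) with h0 | h0
            · rw [h0] at h1; exact huv (by simpa using h1.symm)
            · exact hl4 _ h0 (by omega) (h1 ▸ hv)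
        rintro j hj0 hjl (h | h | h)
        · exact key j L hj0 hjl (by omega) h
        · exact key j (2 * L) hj0 hjl (by omega) h
        · exact hl4 j hj0 hjl h

theorem exists_blocks [Finite V] (f : Equiv.Perm V) (L : ℕ) (hL : Odd L)
    (hcyc : ∀ (v : V) (k : ℕ), 0 < k → k < 3 * L → (f ^ k) v ≠ v) :
    ∃ (st : V → V) (pos : V → ℕ), Blocks f L st pos := by
  classical
  have hL0 : 0 < L := hL.pos
  have hfin : Finite (Set V) := inferInstance
  obtain ⟨S, hS, hmax⟩ : ∃ S : Set V, Gapped f L S ∧ ∀ S', Gapped f L S' → S'.ncard ≤ S.ncard := by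
    have hfinset : {S : Set V | Gapped f L S}.Finite := Set.toFinite _
    have hne : {S : Set V | Gapped f L S}.Nonempty := ⟨∅, fun v hv => hv.elim⟩
    obtain ⟨S, hS, hmax⟩ := Set.exists_max_image _ Set.ncard hfinset hne
    exact ⟨S, hS, fun S' hS' => hmax S' hS'⟩
  have hhit : ∀ v, ∃ k : ℕ, (f.symm ^ k) v ∈ S := by
    intro v
    by_contra hcon
    have hcon' : ∀ k : ℕ, (f.symm ^ k) v ∉ S := fun k hk => hcon ⟨k, hk⟩
    obtain ⟨S', h1, h2, h3⟩ := gapped_extend hL hcyc hS v hcon'
    have h4 := hmax S' h3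
    have h5 : S ⊂ S' := ⟨h1, fun h => hcon' 0 (h h2)⟩
    have h6 := Set.ncard_lt_ncard h5 (Set.toFinite S')
    omega
  have hgap : ∀ v ∈ S, ∃ k : ℕ, Odd k ∧ L ≤ k ∧ k < 3 * L ∧ (f ^ k) v ∈ S ∧
      ∀ j : ℕ, 0 < j → j < k → (f ^ j) v ∉ S := by
    intro v hv
    obtain ⟨k, h1, h2, h3, h4⟩ := hS v hv
    refine ⟨k, h1, h2, ?_, h3, h4⟩
    by_contra hcon
    obtain ⟨S', g1, g2, g3, g4⟩ := gapped_refine hL hcyc hS v hv k h1 (by omega) h3 h4
    have h4 := hmax S' g4
    have h5 : S ⊂ S' := ⟨g1, fun h => g3 (h g2)⟩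
    have h6 := Set.ncard_lt_ncard h5 (Set.toFinite S')
    omega
  let pos : V → ℕ := fun v => Nat.find (hhit v)
  let st : V → V := fun v => (f.symm ^ (pos v)) v
  have hstS : ∀ v, st v ∈ S := fun v => Nat.find_spec (hhit v)
  have hminp : ∀ v j, j < pos v → (f.symm ^ j) v ∉ S := fun v j hj => Nat.find_min (hhit v) hj
  have hpos0 : ∀ v ∈ S, pos v = 0 := by
    intro v hv
    rw [Nat.find_eq_zero (hhit v)]
    exact hv
  have hst0 : ∀ v ∈ S, st v = v := by
    intro v hv
    show (f.symm ^ (pos v)) v = v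
    rw [hpos0 v hv]; rfl
  have heq : ∀ v, (f ^ (pos v)) (st v) = v := fun v => symm_pow_apply f (pos v) v
  have hlt : ∀ v k, (f ^ k) (st v) ∈ S → 0 < k → pos v < k := by
    intro v k hk hk0
    by_contra hcon
    have h1 : (f ^ (pos v - k)) ((f ^ k) (st v)) = v := by
      rw [← Equiv.Perm.mul_apply, ← pow_add, show pos v - k + k = pos v by omega, heq]
    have h2 := eq_symm_pow h1
    exact hminp v (pos v - k) (by omega) (h2 ▸ hk)
  refine ⟨st, pos, ⟨fun v => hst0 _ (hstS v), fun v => hpos0 _ (hstS v), heq, ?_, ?_⟩⟩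
  · intro v
    obtain ⟨k, h1, h2, h3, h4, h5⟩ := hgap _ (hstS v)
    have := hlt v k h4 (by omega)
    omega
  · intro v
    obtain ⟨k, h1, h2, h3, h4, h5⟩ := hgap _ (hstS v)
    have hpk := hlt v k h4 (by omega)
    have hfv : f v = (f ^ (pos v + 1)) (st v) := by
      rw [pow_succ', Equiv.Perm.mul_apply, heq]
    rcases Nat.lt_or_ge (pos v + 1) k with hlt' | hge
    · left
      have hfS : f v ∉ S := by rw [hfv]; exact h5 _ (by omega) hlt'
      have hp : pos (f v) = pos v + 1 := by
        have hge0 : ∀ j, j < pos v + 1 → (f.symm ^ j) (f v) ∉ S := by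
          intro j hj
          rcases j with _ | j
          · exact hfS
          · rw [pow_succ, Equiv.Perm.mul_apply, Equiv.symm_apply_apply]
            exact hminp v j (by omega)
        have hmem : (f.symm ^ (pos v + 1)) (f v) ∈ S := by
          rw [pow_succ, Equiv.Perm.mul_apply, Equiv.symm_apply_apply]
          exact hstS v
        exact (Nat.find_eq_iff (hhit (f v))).mpr ⟨hmem, fun j hj => hge0 j hj⟩
      refine ⟨?_, hp⟩
      show (f.symm ^ (pos (f v))) (f v) = st v
      rw [hp, pow_succ, Equiv.Perm.mul_apply, Equiv.symm_apply_apply]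
    · right
      have hk' : pos v + 1 = k := by omega
      have hfS : f v ∈ S := by rw [hfv, hk']; exact h4
      exact ⟨hst0 _ hfS, hpos0 _ hfS, hk' ▸ h1, hk' ▸ h2⟩

end Pool.Agent.H32.Hom
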