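import Mathlib
import Pool.Agent.H32.Hom.Defs

/-!
# Homogeneous colourings: the colouring from the block data
-/

namespace Pool.Agent.H32.Hom

variable {V : Type}

theorem homog_of_data {C : Type} (f : Equiv.Perm V) (mt st : V → V) (pos : V → ℕ)
    (L w R : ℕ) (p : V → ℕ) (hinv : ∀ v, mt (mt v) = v)
    (hB : Blocks f L st pos) (hL : w * R < L) (hw0 : 0 < w) (hL3 : 3 ≤ L) (hp : ∀ s, p s < R)
    (κ : V → C)
    (hA : ∀ x, κ (st x) ≠ κ (bk f st x) ∧ κ (st x) ≠ κ (bk f st (bk f st x)) ∧
      κ (bk f st x) ≠ κ (bk f st (bk f st x)))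
    (hBB : ∀ x a b, In3 f st x a → In3 f st (mt x) b → κ a ≠ κ b)
    (hC : ∀ s, st s = s → ∃ (i j : ℕ) (z : C), Odd i ∧ Odd j ∧ i < j ∧ i / w = p s ∧
      j / w = p s ∧ ¬ Win st pos w p (mt ((f ^ i) s)) ∧ ¬ Win st pos w p (mt ((f ^ j) s)) ∧
      κ (src f mt st pos w p s i) = z ∧ κ (src f mt st pos w p s j) = z ∧
      ∀ t, i < t → t < j → (∀ b, In3 f st (mt ((f ^ t) s)) b → κ b ≠ z) ∧
        (Win st pos w p (mt ((f ^ t) s)) → ∀ y, st y = st (mt ((f ^ t) s)) →
          Win st pos w p y → ¬ Win st pos w p (mt y) → κ (sg f st pos w p (mt y)) ≠ z)) :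
    ∃ c : V → C, Homog f mt c := by
  classical
  -- the neighbours on the cycle
  have hsym : ∀ v, (st v = st (f.symm v) ∧ pos v = pos (f.symm v) + 1) ∨
      (st v = v ∧ pos v = 0 ∧ Odd (pos (f.symm v) + 1) ∧ L ≤ pos (f.symm v) + 1) := by
    intro v
    have h := hB.next (f.symm v)
    rw [Equiv.apply_symm_apply] at h
    exact h
  have hrun : ∀ s, st s = s → ∀ t, t < L → st ((f ^ t) s) = s ∧ pos ((f ^ t) s) = t := by
    intro s hs t
    induction t with
    | zero =>
      intro _
      have h0 := hB.pos_st s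
      rw [hs] at h0
      exact ⟨by simpa using hs, by simpa using h0⟩
    | succ t ih =>
      intro ht
      obtain ⟨h1, h2⟩ := ih (by omega)
      have hf : (f ^ (t + 1)) s = f ((f ^ t) s) := by
        rw [pow_succ', Equiv.Perm.mul_apply]
      rw [hf]
      rcases hB.next ((f ^ t) s) with ⟨a, b⟩ | ⟨a, b, c, d⟩
      · exact ⟨a.trans h1, by rw [b, h2]⟩
      · omega
  have hbk : ∀ x y, st x = st y → bk f st x = bk f st y := by
    intro x y h
    unfold bk
    rw [h]
  have hin : ∀ x y b, st x = st y → In3 f st x b → In3 f st y b := by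
    intro x y b h hb
    unfold In3 at *
    rw [← h, ← hbk x y h]
    exact hb
  have hbst : ∀ x, st (bk f st x) = bk f st x := by
    intro x
    unfold bk
    exact hB.st_st _
  -- choose the data
  have hC' : ∀ s, ∃ (i j : ℕ) (z : C), st s = s → (Odd i ∧ Odd j ∧ i < j ∧ i / w = p s ∧
      j / w = p s ∧ ¬ Win st pos w p (mt ((f ^ i) s)) ∧ ¬ Win st pos w p (mt ((f ^ j) s)) ∧
      κ (src f mt st pos w p s i) = z ∧ κ (src f mt st pos w p s j) = z ∧
      ∀ t, i < t → t < j → (∀ b, In3 f st (mt ((f ^ t) s)) b → κ b ≠ z) ∧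
        (Win st pos w p (mt ((f ^ t) s)) → ∀ y, st y = st (mt ((f ^ t) s)) →
          Win st pos w p y → ¬ Win st pos w p (mt y) → κ (sg f st pos w p (mt y)) ≠ z)) := by
    intro s
    by_cases hs : st s = s
    · obtain ⟨i, j, z, h⟩ := hC s hs
      exact ⟨i, j, z, fun _ => h⟩
    · exact ⟨0, 0, κ s, fun h => absurd h hs⟩
  choose i j z hh using hC'
  have hss : ∀ v, st (st v) = st v := hB.st_st
  have hiL : ∀ s, st s = s → i s < w * R := by
    intro s hs
    obtain ⟨_, _, _, h, _⟩ := hh s hs
    have h1 := hp s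
    rw [← h] at h1
    have := (Nat.div_lt_iff_lt_mul hw0).1 h1
    rw [mul_comm]
    exact this
  have hjL : ∀ s, st s = s → j s < w * R := by
    intro s hs
    obtain ⟨_, _, _, _, h, _⟩ := hh s hs
    have h1 := hp s
    rw [← h] at h1
    have := (Nat.div_lt_iff_lt_mul hw0).1 h1
    rw [mul_comm]
    exact this
  -- the colouring
  let c : V → C := fun v => if Odd (pos v) then κ (bk f st v)
    else if pos v < i (st v) then κ (bk f st (bk f st v))
    else if pos v < j (st v) then z (st v) else κ (st v)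
  have cdef : ∀ v, c v = if Odd (pos v) then κ (bk f st v)
    else if pos v < i (st v) then κ (bk f st (bk f st v))
    else if pos v < j (st v) then z (st v) else κ (st v) := fun v => rfl
  -- outside the windows
  have hout : ∀ y, ¬ Win st pos w p y → c y = κ (sg f st pos w p y) := by
    intro y hy
    obtain ⟨hoi, hoj, hij, hi, hj, _⟩ := hh (st y) (hss y)
    rw [cdef y]
    unfold sg
    unfold Win at hy
    by_cases ho : Odd (pos y)
    · rw [if_pos ho, if_pos ho]
    · rw [if_neg ho, if_neg ho]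
      by_cases hlt : pos y / w < p (st y)
      · have h1 : pos y < i (st y) := by
          by_contra hcon
          have := Nat.div_le_div_right (c := w) (not_lt.1 hcon)
          omega
        rw [if_pos hlt, if_pos h1]
      · have h2 : j (st y) < pos y := by
          by_contra hcon
          have := Nat.div_le_div_right (c := w) (not_lt.1 hcon)
          omega
        rw [if_neg hlt, if_neg (by omega), if_neg (by omega)]
  -- the colours on the cycle for even positions
  have hEf : ∀ v, ¬ Odd (pos v) → c (f v) = κ (bk f st v) := by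
    intro v hv
    rcases hB.next v with ⟨a, b⟩ | ⟨a, b, _, _⟩
    · have ho : Odd (pos (f v)) := by
        rw [b]
        exact (Nat.not_odd_iff_even.1 hv).add_one
      rw [cdef (f v), if_pos ho, hbk _ _ a]
    · have h0 : ¬ Odd (pos (f v)) := by rw [b]; decide
      obtain ⟨hoi, _⟩ := hh (f v) a
      have hi0 : pos (f v) < i (st (f v)) := by
        rw [a, b]
        exact hoi.pos
      rw [cdef (f v), if_neg h0, if_pos hi0]
      have h1 : bk f st (f v) = st v := by
        unfold bk
        rw [a, Equiv.symm_apply_apply]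
      rw [h1, hbk (st v) v (hss v)]
  have hEs : ∀ v, ¬ Odd (pos v) → c (f.symm v) = κ (bk f st v) := by
    intro v hv
    rcases hsym v with ⟨a, b⟩ | ⟨a, b, ho, hl⟩
    · have ho : Odd (pos (f.symm v)) := by
        rw [b] at hv
        rw [Nat.not_odd_iff_even] at hv
        rw [← Nat.not_even_iff_odd]
        intro h
        have := h.add_one
        rw [← Nat.not_even_iff_odd] at this
        exact this hv
      rw [cdef (f.symm v), if_pos ho, hbk _ _ a]
    · have ho' : ¬ Odd (pos (f.symm v)) := by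
        intro h
        have := h.add_one
        rw [← Nat.not_odd_iff_even] at this
        exact this ho
      have h1 := hiL (st (f.symm v)) (hss _)
      have h2 := hjL (st (f.symm v)) (hss _)
      rw [cdef (f.symm v), if_neg ho', if_neg (by omega), if_neg (by omega)]
      unfold bk
      rw [a]
  -- odd positions
  have hOf : ∀ v, Odd (pos v) → st (f v) = st v ∧ pos (f v) = pos v + 1 := by
    intro v hv
    rcases hB.next v with h | ⟨_, _, h, _⟩
    · exact h
    · have := hv.add_one
      rw [← Nat.not_odd_iff_even] at this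
      exact absurd h this
  have hOs : ∀ v, Odd (pos v) → st (f.symm v) = st v ∧ pos (f.symm v) + 1 = pos v := by
    intro v hv
    rcases hsym v with ⟨a, b⟩ | ⟨_, b, _, _⟩
    · exact ⟨a.symm, b.symm⟩
    · rw [b] at hv
      exact absurd hv (by decide)
  have hcOf : ∀ v, Odd (pos v) → c (f v) = if pos v + 1 < i (st v) then κ (bk f st (bk f st v))
      else if pos v + 1 < j (st v) then z (st v) else κ (st v) := by
    intro v hv
    obtain ⟨a, b⟩ := hOf v hv
    have he : ¬ Odd (pos (f v)) := by
      rw [b, Nat.not_odd_iff_even]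
      exact hv.add_one
    rw [cdef (f v), if_neg he, a, b, hbk _ _ a]
  have hcOs : ∀ v, Odd (pos v) → c (f.symm v) = if pos v < i (st v) + 1 then κ (bk f st (bk f st v))
      else if pos v < j (st v) + 1 then z (st v) else κ (st v) := by
    intro v hv
    obtain ⟨a, b⟩ := hOs v hv
    have he : ¬ Odd (pos (f.symm v)) := by
      intro h
      rw [← b] at hv
      have := h.add_one
      rw [← Nat.not_odd_iff_even] at this
      exact this hv
    rw [cdef (f.symm v), if_neg he, a, hbk _ _ a]
    have e1 : (pos (f.symm v) < i (st v)) = (pos v < i (st v) + 1) := by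
      rw [← b]; simp
    have e2 : (pos (f.symm v) < j (st v)) = (pos v < j (st v) + 1) := by
      rw [← b]; simp
    simp only [e1, e2]
  -- memberships
  have m0 : ∀ v, In3 f st v (st v) := fun v => Or.inl rfl
  have m1 : ∀ v, In3 f st v (bk f st v) := fun v => Or.inr (Or.inl rfl)
  have m2 : ∀ v, In3 f st v (bk f st (bk f st v)) := fun v => Or.inr (Or.inr rfl)
  have msg : ∀ v, In3 f st v (sg f st pos w p v) := by
    intro v
    unfold sg
    split_ifs
    · exact m1 v
    · exact m2 v
    · exact m0 v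
  -- vertices with given block and position
  have hpow : ∀ v, (f ^ (pos v)) (st v) = v := hB.eq_pow
  -- the positions i and j of a block
  have hvi : ∀ s, st s = s → st ((f ^ (i s)) s) = s ∧ pos ((f ^ (i s)) s) = i s := by
    intro s hs
    exact hrun s hs _ (lt_trans (hiL s hs) hL)
  -- z is not a colour of the three blocks of v
  have hz3 : ∀ v b, In3 f st v b → z (st v) ≠ κ b := by
    intro v b hb
    obtain ⟨_, _, _, _, _, _, _, h8, _⟩ := hh (st v) (hss v)
    obtain ⟨h1, _⟩ := hvi (st v) (hss v)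
    rw [← h8]
    have h2 : In3 f st ((f ^ (i (st v))) (st v)) b := hin v _ b (by rw [h1]) hb
    have h3 := hBB _ b _ h2 (msg (mt ((f ^ (i (st v))) (st v))))
    exact fun h => h3 h.symm
  -- the strict middle
  let S : V → Prop := fun v => i (st v) < pos v ∧ pos v < j (st v)
  have hS1 : ∀ v, S v → ∀ b, In3 f st (mt v) b → κ b ≠ z (st v) := by
    intro v hv b hb
    obtain ⟨_, _, _, _, _, _, _, _, _, h⟩ := hh (st v) (hss v)
    have := (h (pos v) hv.1 hv.2).1 b
    rw [hpow v] at this
    exact this hb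
  have hS2 : ∀ v, S v → S (mt v) → z (st (mt v)) ≠ z (st v) := by
    intro v hv hy
    obtain ⟨_, _, _, _, _, _, _, _, _, h⟩ := hh (st v) (hss v)
    have h1 := (h (pos v) hv.1 hv.2).2
    rw [hpow v] at h1
    obtain ⟨_, _, hij, hi, hj, h6, _, h8, _, _⟩ := hh (st (mt v)) (hss (mt v))
    have hW : Win st pos w p (mt v) := by
      unfold Win
      have a1 := Nat.div_le_div_right (c := w) hy.1.le
      have a2 := Nat.div_le_div_right (c := w) hy.2.le
      omega
    obtain ⟨g1, g2⟩ := hvi (st (mt v)) (hss (mt v))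
    have h2 := h1 hW ((f ^ (i (st (mt v)))) (st (mt v))) g1 (by
      unfold Win
      rw [g2, g1]
      exact hi) h6
    rw [← h8]
    exact h2
  -- colours of vertices outside S
  have hcS : ∀ v, ¬ S v → ∃ b, In3 f st v b ∧ c v = κ b := by
    intro v hv
    rw [cdef v]
    by_cases ho : Odd (pos v)
    · exact ⟨_, m1 v, by rw [if_pos ho]⟩
    · rw [if_neg ho]
      by_cases h1 : pos v < i (st v)
      · exact ⟨_, m2 v, by rw [if_pos h1]⟩
      · rw [if_neg h1]
        by_cases h2 : pos v < j (st v)
        · exfalso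
          apply hv
          refine ⟨?_, h2⟩
          have : pos v ≠ i (st v) := by
            intro he
            apply ho
            rw [he]
            exact (hh (st v) (hss v)).1
          omega
        · exact ⟨_, m0 v, by rw [if_neg h2]⟩
  have hcS' : ∀ v, (∃ b, In3 f st v b ∧ c v = κ b) ∨ (S v ∧ c v = z (st v)) := by
    intro v
    by_cases hv : S v
    · rw [cdef v]
      by_cases ho : Odd (pos v)
      · exact Or.inl ⟨_, m1 v, by rw [if_pos ho]⟩
      · right
        refine ⟨hv, ?_⟩
        rw [if_neg ho, if_neg (by have := hv.1; omega), if_pos hv.2]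
    · exact Or.inl (hcS v hv)
  -- normal vertices
  have hmain : ∀ v (X : C), ((∃ b, In3 f st v b ∧ X = κ b) ∨ (S v ∧ X = z (st v))) →
      c (mt v) ≠ X := by
    intro v X hX hcX
    rcases hcS' (mt v) with ⟨b', hb', e'⟩ | ⟨hy, e'⟩
    · rcases hX with ⟨b, hb, e⟩ | ⟨hv, e⟩
      · exact hBB v b b' hb hb' (by rw [← e, ← e', hcX])
      · exact hS1 v hv b' hb' (by rw [← e, ← e', hcX])
    · rcases hX with ⟨b, hb, e⟩ | ⟨hv, e⟩
      · refine hS1 (mt v) hy b ?_ (by rw [← e, ← e', hcX])
        rw [hinv v]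
        exact hb
      · exact hS2 v hv hy (by rw [← e, ← e', hcX])
  -- special vertices
  have hspec : ∀ v, (pos v = i (st v) ∨ pos v = j (st v)) → c (mt v) = z (st v) := by
    intro v hv
    obtain ⟨_, _, _, _, _, h6, h7, h8, h9, _⟩ := hh (st v) (hss v)
    rcases hv with hv | hv
    · have hx : (f ^ (i (st v))) (st v) = v := by rw [← hv]; exact hpow v
      unfold src at h8
      rw [hx] at h6 h8
      rw [hout _ h6, h8]
    · have hx : (f ^ (j (st v))) (st v) = v := by rw [← hv]; exact hpow v
      unfold src at h9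
      rw [hx] at h7 h9
      rw [hout _ h7, h9]
  refine ⟨c, ?_⟩
  intro v
  obtain ⟨hA1, hA2, hA3⟩ := hA v
  obtain ⟨hoi, hoj, hij, _⟩ := hh (st v) (hss v)
  have hij2 : i (st v) + 2 ≤ j (st v) := by
    rcases hoi with ⟨a, ha⟩
    rcases hoj with ⟨b, hb⟩
    omega
  have hz0 := hz3 v _ (m0 v)
  have hz1 := hz3 v _ (m1 v)
  have hz2 := hz3 v _ (m2 v)
  by_cases ho : Odd (pos v)
  · have cv : c v = κ (bk f st v) := by rw [cdef v, if_pos ho]
    have cf := hcOf v ho
    have cs := hcOs v ho
    by_cases hi : pos v = i (st v)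
    · have cm := hspec v (Or.inl hi)
      rw [if_neg (by omega), if_pos (by omega)] at cf
      rw [if_pos (by omega)] at cs
      rw [cv, cf, cs, cm]
      exact ⟨hz1, hz1, Or.inr (Or.inl ⟨rfl, fun h => hz2 h.symm⟩)⟩
    by_cases hj : pos v = j (st v)
    · have cm := hspec v (Or.inr hj)
      rw [if_neg (by omega), if_neg (by omega)] at cf
      rw [if_neg (by omega), if_pos (by omega)] at cs
      rw [cv, cf, cs, cm]
      exact ⟨hA1, hz1, Or.inr (Or.inr ⟨rfl, fun h => hz0 h.symm⟩)⟩
    -- normal, odd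
    have hpar : pos v ≠ i (st v) + 1 ∧ pos v + 1 ≠ i (st v) ∧ pos v ≠ j (st v) + 1 ∧
        pos v + 1 ≠ j (st v) := by
      rcases hoi with ⟨a, ha⟩
      rcases hoj with ⟨b, hb⟩
      rcases ho with ⟨d, hd⟩
      omega
    have key : ∀ X : C, c (f v) = X → c (f.symm v) = X → X ≠ κ (bk f st v) →
        ((∃ b, In3 f st v b ∧ X = κ b) ∨ (S v ∧ X = z (st v))) →
        c (f v) ≠ c v ∧ c (mt v) ≠ c v ∧
          ((c (f v) = c (f.symm v) ∧ c (mt v) ≠ c (f v)) ∨
          (c (mt v) = c (f v) ∧ c (f.symm v) ≠ c (f v)) ∨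
          (c (mt v) = c (f.symm v) ∧ c (f v) ≠ c (f.symm v))) := by
      intro X e1 e2 hX hm
      rw [e1, e2]
      refine ⟨by rw [cv]; exact hX, hmain v (c v) (Or.inl ⟨_, m1 v, cv⟩), Or.inl ⟨rfl, hmain v X hm⟩⟩
    by_cases h1 : pos v < i (st v)
    · rw [if_pos (by omega)] at cf
      rw [if_pos (by omega)] at cs
      exact key _ cf cs (fun h => hA3 h.symm) (Or.inl ⟨_, m2 v, rfl⟩)
    · by_cases h2 : pos v < j (st v)
      · rw [if_neg (by omega), if_pos (by omega)] at cf
        rw [if_neg (by omega), if_pos (by omega)] at cs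
        exact key _ cf cs hz1 (Or.inr ⟨⟨by omega, h2⟩, rfl⟩)
      · rw [if_neg (by omega), if_neg (by omega)] at cf
        rw [if_neg (by omega), if_neg (by omega)] at cs
        exact key _ cf cs hA1 (Or.inl ⟨_, m0 v, rfl⟩)
  · have cf := hEf v ho
    have cs := hEs v ho
    have cne : κ (bk f st v) ≠ c v := by
      rw [cdef v, if_neg ho]
      split_ifs
      · exact hA3
      · exact hz1.symm
      · exact hA1.symm
    rw [cf, cs]
    exact ⟨cne, hmain v (c v) (hcS' v), Or.inl ⟨rfl, hmain v _ (Or.inl ⟨_, m1 v, rfl⟩)⟩⟩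

end Pool.Agent.H32.Hom
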