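import Mathlib
import Pool.Agent.H32.Hom.Defs

/-!
# The second moment count

Among all functions `X : Fin m → Fin (m ^ 2)` at least a quarter takes some value, outside
small forbidden sets, at exactly two places.
-/

namespace Pool.Agent.H32.Hom

namespace Cnt

variable {m : ℕ}

/-- `X` takes the value `X k` exactly at `k` and `l`, and this value is not forbidden. -/
def D (B : Fin m → Finset (Fin (m ^ 2))) (p : Fin m × Fin m) (X : Fin m → Fin (m ^ 2)) : Prop :=
  X p.2 = X p.1 ∧ X p.1 ∉ B p.1 ∧ X p.1 ∉ B p.2 ∧ ∀ r, r ≠ p.1 → r ≠ p.2 → X r ≠ X p.1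

open Classical in
/-- Lower bound for one pair. -/
lemma card_D_ge (_hm : 16 ≤ m) (B : Fin m → Finset (Fin (m ^ 2)))
    (hB : ∀ k, 16 * (B k).card ≤ m ^ 2) {p : Fin m × Fin m} (hp : p.1 ≠ p.2) :
    7 * m ^ 2 * (m ^ 2 - 1) ^ (m - 2)
      ≤ 8 * (Finset.univ.filter (fun X : Fin m → Fin (m ^ 2) => D B p X)).card := by
  obtain ⟨k, l⟩ := p
  simp only at hp
  set S : Finset (Fin (m ^ 2)) := Finset.univ \ (B k ∪ B l) with hS
  have hScard : 7 * m ^ 2 ≤ 8 * S.card := by
    have h1 : S.card = m ^ 2 - (B k ∪ B l).card := by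
      rw [hS, Finset.card_sdiff_of_subset (Finset.subset_univ _), Finset.card_univ,
        Fintype.card_fin]
    have h2 := Finset.card_union_le (B k) (B l)
    have h3 := hB k
    have h4 := hB l
    omega
  set T : Fin (m ^ 2) → Fin m → Finset (Fin (m ^ 2)) := fun c r =>
    if r = k ∨ r = l then {c} else Finset.univ.erase c with hT
  have hcardT : ∀ c, (Fintype.piFinset (T c)).card = (m ^ 2 - 1) ^ (m - 2) := by
    intro c
    rw [Fintype.card_piFinset]
    have h1 : ∀ r, (T c r).card = if r = k ∨ r = l then 1 else m ^ 2 - 1 := by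
      intro r
      by_cases h : r = k ∨ r = l
      · simp [hT, h]
      · simp [hT, h, Finset.card_erase_of_mem]
    rw [Finset.prod_congr rfl (fun r _ => h1 r), Finset.prod_ite, Finset.prod_const_one, one_mul,
      Finset.prod_const]
    congr 1
    have h2 : (Finset.univ.filter (fun r : Fin m => ¬ (r = k ∨ r = l)))
        = Finset.univ \ {k, l} := by
      ext r; simp
    rw [h2, Finset.card_sdiff_of_subset (Finset.subset_univ _), Finset.card_univ,
      Fintype.card_fin, Finset.card_pair hp]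
  have hsub : S.biUnion (fun c => Fintype.piFinset (T c))
      ⊆ Finset.univ.filter (fun X : Fin m → Fin (m ^ 2) => D B (k, l) X) := by
    intro X hX
    rw [Finset.mem_biUnion] at hX
    obtain ⟨c, hc, hX⟩ := hX
    rw [Fintype.mem_piFinset] at hX
    have hk : X k = c := by
      have := hX k
      simpa [hT] using this
    have hl : X l = c := by
      have := hX l
      simpa [hT] using this
    rw [hS, Finset.mem_sdiff, Finset.mem_union, not_or] at hc
    rw [Finset.mem_filter]
    refine ⟨Finset.mem_univ _, ?_, ?_, ?_, ?_⟩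
    · show X l = X k
      rw [hk, hl]
    · show X k ∉ B k
      rw [hk]; exact hc.2.1
    · show X k ∉ B l
      rw [hk]; exact hc.2.2
    · intro r h1 h2
      show X r ≠ X k
      have h3 := hX r
      have h4 : ¬ (r = k ∨ r = l) := by
        rintro (h | h)
        · exact h1 h
        · exact h2 h
      simp only [hT, h4, if_false, Finset.mem_erase] at h3
      rw [hk]
      exact h3.1
  have hdisj : ∀ c ∈ S, ∀ c' ∈ S, c ≠ c' →
      Disjoint (Fintype.piFinset (T c)) (Fintype.piFinset (T c')) := by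
    intro c _ c' _ hcc
    rw [Finset.disjoint_left]
    intro X hX hX'
    rw [Fintype.mem_piFinset] at hX hX'
    have h1 := hX k
    have h2 := hX' k
    simp only [hT, true_or, if_true, Finset.mem_singleton] at h1 h2
    exact hcc (h1.symm.trans h2)
  have h5 := Finset.card_le_card hsub
  rw [Finset.card_biUnion hdisj, Finset.sum_congr rfl (fun c _ => hcardT c), Finset.sum_const,
    smul_eq_mul] at h5
  calc 7 * m ^ 2 * (m ^ 2 - 1) ^ (m - 2) ≤ 8 * S.card * (m ^ 2 - 1) ^ (m - 2) :=
        Nat.mul_le_mul_right _ hScard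
    _ = 8 * (S.card * (m ^ 2 - 1) ^ (m - 2)) := by ring
    _ ≤ _ := Nat.mul_le_mul_left _ h5

open Classical in
/-- Upper bound for the intersection of two different pairs. -/
lemma card_DD_le (_hm : 16 ≤ m) (B : Fin m → Finset (Fin (m ^ 2)))
    {p p' : Fin m × Fin m} (hp : p.1 < p.2) (hp' : p'.1 < p'.2) (hne : p ≠ p') :
    (Finset.univ.filter (fun X : Fin m → Fin (m ^ 2) => D B p X ∧ D B p' X)).card
      ≤ (m ^ 2) ^ (m - 2) := by
  obtain ⟨k, l⟩ := p
  obtain ⟨k', l'⟩ := p'
  simp only at hp hp'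
  by_cases hll : l = l'
  · -- the common index makes the intersection empty
    subst hll
    have hkk : k ≠ k' := by
      rintro rfl; exact hne rfl
    have : (Finset.univ.filter (fun X : Fin m → Fin (m ^ 2) => D B (k, l) X ∧ D B (k', l) X))
        = ∅ := by
      rw [Finset.filter_eq_empty_iff]
      rintro X - ⟨h1, h2⟩
      have h3 : X k' ≠ X k := h1.2.2.2 k' hkk.symm hp'.ne
      have h4 : X l = X k := h1.1
      have h5 : X l = X k' := h2.1
      exact h3 (h5.symm.trans h4)
    rw [this, Finset.card_empty]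
    exact Nat.zero_le _
  · -- restriction to the complement of l, l' is injective
    have hcard : Fintype.card ({r : Fin m // r ≠ l ∧ r ≠ l'} → Fin (m ^ 2)) = (m ^ 2) ^ (m - 2) := by
      rw [Fintype.card_fun, Fintype.card_fin]
      congr 1
      rw [Fintype.card_subtype]
      have h2 : (Finset.univ.filter (fun r : Fin m => r ≠ l ∧ r ≠ l')) = Finset.univ \ {l, l'} := by
        ext r; simp
      rw [h2, Finset.card_sdiff_of_subset (Finset.subset_univ _), Finset.card_univ,
        Fintype.card_fin, Finset.card_pair hll]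
    rw [← hcard, ← Finset.card_univ]
    apply Finset.card_le_card_of_injOn (fun X => fun r : {r : Fin m // r ≠ l ∧ r ≠ l'} => X r.1)
    · intro X _
      exact Finset.mem_coe.2 (Finset.mem_univ _)
    · intro X hX Y hY hXY
      rw [Finset.mem_coe, Finset.mem_filter] at hX hY
      have hXY' : ∀ r, r ≠ l → r ≠ l' → X r = Y r := fun r h1 h2 =>
        congrFun hXY ⟨r, h1, h2⟩
      have a1 : X l = X k := hX.2.1.1
      have a2 : X l' = X k' := hX.2.2.1
      have b1 : Y l = Y k := hY.2.1.1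
      have b2 : Y l' = Y k' := hY.2.2.1
      -- one of l, l' is not in the other pair's first place
      have hl : X l = Y l ∧ X l' = Y l' := by
        by_cases hk : k = l'
        · -- k = l' < l, then k' < l' < l
          have h1 : X k' = Y k' := hXY' k' (by
            rintro rfl
            rw [← hk] at hp'
            exact absurd (hp.trans hp') (lt_irrefl _)) hp'.ne
          have h2 : X l' = Y l' := by rw [a2, b2, h1]
          refine ⟨?_, h2⟩
          rw [a1, b1, hk, h2]
        · have h1 : X k = Y k := hXY' k hp.ne hk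
          have h2 : X l = Y l := by rw [a1, b1, h1]
          refine ⟨h2, ?_⟩
          by_cases hk' : k' = l
          · rw [a2, b2, hk', h2]
          · rw [a2, b2, hXY' k' hk' hp'.ne]
      funext r
      by_cases h1 : r = l
      · rw [h1]; exact hl.1
      · by_cases h2 : r = l'
        · rw [h2]; exact hl.2
        · exact hXY' r h1 h2

/-- The elementary inequality `3 n - n ^ 2 ≤ 2 [n ≥ 1]`. -/
lemma elem (n : ℤ) (hn : 0 ≤ n) : 3 * n - n ^ 2 ≤ if 1 ≤ n then 2 else 0 := by
  split_ifs with h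
  · rcases le_or_gt n 1 with h1 | h1
    · have : n = 1 := le_antisymm h1 h
      subst this; norm_num
    · nlinarith
  · have : n = 0 := by omega
    subst this; norm_num

/-- The numerical inequality for the first moment. -/
lemma num1 (hm : 16 ≤ m) :
    3 * ((m : ℝ) ^ 2) ^ m ≤ (m * (m - 1) / 2) * (7 * (m : ℝ) ^ 2 * ((m : ℝ) ^ 2 - 1) ^ (m - 2)) := by
  have hm' : (16 : ℝ) ≤ m := by exact_mod_cast hm
  set q : ℝ := (m : ℝ) ^ 2 with hq
  have hq0 : 0 < q := by positivity
  have hb : 1 + ((m - 2 : ℕ) : ℝ) * (-(1 / q)) ≤ (1 + -(1 / q)) ^ (m - 2) := by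
    apply one_add_mul_le_pow
    have : 1 / q ≤ 1 := by
      rw [div_le_one hq0, hq]; nlinarith
    linarith
  have hc : ((m - 2 : ℕ) : ℝ) = m - 2 := by
    rw [Nat.cast_sub (by omega)]; norm_num
  rw [hc] at hb
  have hpow : (q - 1) ^ (m - 2) = q ^ (m - 2) * (1 + -(1 / q)) ^ (m - 2) := by
    rw [← mul_pow]; congr 1; field_simp; ring
  have h1 : q ^ (m - 2) * (1 + (m - 2) * (-(1 / q))) ≤ (q - 1) ^ (m - 2) := by
    rw [hpow]; exact mul_le_mul_of_nonneg_left hb (by positivity)
  have h2 : q ^ m = q ^ (m - 2) * q ^ 2 := by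
    rw [← pow_add]; congr 1; omega
  rw [h2]
  set Q : ℝ := q ^ (m - 2) with hQ
  have hQ0 : 0 < Q := by positivity
  have h3 : (m * (m - 1) / 2) * (7 * q * (Q * (1 + (m - 2) * (-(1 / q)))))
      ≤ ((m : ℝ) * (m - 1) / 2) * (7 * q * (q - 1) ^ (m - 2)) := by
    apply mul_le_mul_of_nonneg_left
    · exact mul_le_mul_of_nonneg_left h1 (by positivity)
    · have : (0 : ℝ) ≤ m - 1 := by linarith
      positivity
  refine le_trans ?_ h3
  have h4 : (m * (m - 1) / 2) * (7 * q * (Q * (1 + (m - 2) * (-(1 / q)))))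
      = Q * ((m : ℝ) * (m - 1) / 2 * 7 * (q - (m - 2))) := by
    field_simp
    ring
  rw [h4]
  have h5 : 3 * (Q * q ^ 2) = Q * (3 * q ^ 2) := by ring
  rw [h5]
  apply mul_le_mul_of_nonneg_left _ hQ0.le
  rw [hq]
  have h6 : (0 : ℝ) ≤ m * ((m : ℝ) ^ 2 * (m - 14) + 21 * m - 14) := by
    apply mul_nonneg (by linarith)
    have : (0 : ℝ) ≤ (m : ℝ) ^ 2 * (m - 14) := mul_nonneg (by positivity) (by linarith)
    linarith
  nlinarith

end Cnt

open Cnt in
open Classical in
theorem good_count (m : ℕ) (hm : 16 ≤ m) (B : Fin m → Finset (Fin (m ^ 2)))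
    (hB : ∀ k, 16 * (B k).card ≤ m ^ 2) :
    (m ^ 2) ^ m ≤ 4 * (Finset.univ.filter (fun X : Fin m → Fin (m ^ 2) =>
      ∃ k l, k ≠ l ∧ X l = X k ∧ X k ∉ B k ∧ X k ∉ B l ∧
        ∀ r, r ≠ k → r ≠ l → X r ≠ X k)).card := by
  set good := Finset.univ.filter (fun X : Fin m → Fin (m ^ 2) =>
      ∃ k l, k ≠ l ∧ X l = X k ∧ X k ∉ B k ∧ X k ∉ B l ∧
        ∀ r, r ≠ k → r ≠ l → X r ≠ X k) with hgood
  set P : Finset (Fin m × Fin m) := Finset.univ.filter (fun p => p.1 < p.2) with hP
  set I : Fin m × Fin m → (Fin m → Fin (m ^ 2)) → ℤ := fun p X => if D B p X then 1 else 0 with hI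
  have hI0 : ∀ p X, 0 ≤ I p X := by
    intro p X; simp only [hI]; split_ifs <;> norm_num
  have hIsq : ∀ p X, I p X * I p X = I p X := by
    intro p X; simp only [hI]; split_ifs <;> norm_num
  set d : Fin m × Fin m → ℤ := fun p =>
    ((Finset.univ.filter (fun X : Fin m → Fin (m ^ 2) => D B p X)).card : ℤ) with hd
  have hsumI : ∀ p, ∑ X, I p X = d p := by
    intro p
    simp only [hI, hd]
    rw [Finset.sum_boole]
  have hPcard : 2 * P.card = m * (m - 1) := by
    have h1 : P.card = m.choose 2 := by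
      rw [hP]
      have := Finset.card_powersetCard 2 (Finset.univ : Finset (Fin m))
      rw [Finset.card_univ, Fintype.card_fin] at this
      rw [← this]
      apply Finset.card_bij (fun p _ => ({p.1, p.2} : Finset (Fin m)))
      · intro p hp
        rw [Finset.mem_filter] at hp
        rw [Finset.mem_powersetCard]
        exact ⟨Finset.subset_univ _, Finset.card_pair hp.2.ne⟩
      · intro p hp p' hp' h
        rw [Finset.mem_filter] at hp hp'
        obtain ⟨a, b⟩ := p
        obtain ⟨a', b'⟩ := p'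
        simp only at hp hp' h
        have h1 : a ∈ ({a', b'} : Finset (Fin m)) := by rw [← h]; simp
        have h2 : b ∈ ({a', b'} : Finset (Fin m)) := by rw [← h]; simp
        rw [Finset.mem_insert, Finset.mem_singleton] at h1 h2
        rcases h1 with h1 | h1 <;> rcases h2 with h2 | h2
        · exact absurd (h1.trans h2.symm) hp.2.ne
        · rw [h1, h2]
        · exact absurd (hp.2.trans (by rw [h1, h2]; exact hp'.2)) (lt_irrefl _)
        · exact absurd (h1.trans h2.symm) hp.2.ne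
      · intro s hs
        rw [Finset.mem_powersetCard, Finset.card_eq_two] at hs
        obtain ⟨-, x, y, hxy, rfl⟩ := hs
        rcases lt_or_gt_of_ne hxy with h | h
        · exact ⟨(x, y), by rw [Finset.mem_filter]; exact ⟨Finset.mem_univ _, h⟩, rfl⟩
        · exact ⟨(y, x), by rw [Finset.mem_filter]; exact ⟨Finset.mem_univ _, h⟩,
            Finset.pair_comm _ _⟩
    rw [h1, Nat.choose_two_right]
    exact Nat.mul_div_cancel' (Nat.even_mul_pred_self m).two_dvd
  -- second moment
  have hsec : ∀ p ∈ P, ∑ p' ∈ P, ∑ X, I p X * I p' X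
      ≤ d p + (P.card : ℤ) * (((m ^ 2) ^ (m - 2) : ℕ) : ℤ) := by
    intro p hp
    rw [← Finset.add_sum_erase P _ hp]
    have h1 : ∑ X, I p X * I p X = d p := by
      rw [← hsumI]; exact Finset.sum_congr rfl fun X _ => hIsq p X
    rw [h1]
    apply add_le_add le_rfl
    have h2 : ∀ p' ∈ P.erase p, ∑ X, I p X * I p' X ≤ (((m ^ 2) ^ (m - 2) : ℕ) : ℤ) := by
      intro p' hp'
      rw [Finset.mem_erase] at hp'
      have hpp : p.1 < p.2 := (Finset.mem_filter.mp hp).2
      have hpp' : p'.1 < p'.2 := (Finset.mem_filter.mp hp'.2).2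
      have h3 : ∑ X, I p X * I p' X
          = ((Finset.univ.filter (fun X : Fin m → Fin (m ^ 2) => D B p X ∧ D B p' X)).card : ℤ) := by
        rw [← Finset.sum_boole]
        refine Finset.sum_congr rfl fun X _ => ?_
        simp only [hI]
        by_cases h4 : D B p X <;> by_cases h5 : D B p' X <;> simp [h4, h5]
      rw [h3]
      exact_mod_cast card_DD_le hm B hpp hpp' hp'.1.symm
    calc ∑ p' ∈ P.erase p, ∑ X, I p X * I p' X
        ≤ ∑ _p' ∈ P.erase p, (((m ^ 2) ^ (m - 2) : ℕ) : ℤ) := Finset.sum_le_sum h2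
      _ = ((P.erase p).card : ℤ) * (((m ^ 2) ^ (m - 2) : ℕ) : ℤ) := by
          rw [Finset.sum_const, nsmul_eq_mul]
      _ ≤ (P.card : ℤ) * (((m ^ 2) ^ (m - 2) : ℕ) : ℤ) := by
          apply mul_le_mul_of_nonneg_right _ (by positivity)
          exact_mod_cast Finset.card_erase_le
  -- the main inequality
  set S₁ : ℤ := ∑ p ∈ P, d p with hS₁
  have hmain : 3 * S₁ - (S₁ + (P.card : ℤ) * ((P.card : ℤ) * (((m ^ 2) ^ (m - 2) : ℕ) : ℤ)))
      ≤ 2 * (good.card : ℤ) := by
    have h1 : ∀ X : Fin m → Fin (m ^ 2), 3 * (∑ p ∈ P, I p X) - (∑ p ∈ P, I p X) ^ 2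
        ≤ if X ∈ good then 2 else 0 := by
      intro X
      have h2 := elem (∑ p ∈ P, I p X) (Finset.sum_nonneg fun p _ => hI0 p X)
      refine h2.trans ?_
      split_ifs with h3 h4 h4
      · exact le_rfl
      · exfalso
        apply h4
        have h5 : ∃ p ∈ P, I p X ≠ 0 := by
          by_contra hcon
          push Not at hcon
          rw [Finset.sum_eq_zero hcon] at h3
          omega
        obtain ⟨p, hp, hpX⟩ := h5
        have h6 : D B p X := by
          by_contra h7
          apply hpX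
          simp [hI, h7]
        rw [hgood, Finset.mem_filter]
        exact ⟨Finset.mem_univ _, p.1, p.2, (Finset.mem_filter.mp hp).2.ne, h6⟩
      · norm_num
      · exact le_rfl
    have h2 := Finset.sum_le_sum (fun X (_ : X ∈ (Finset.univ : Finset (Fin m → Fin (m ^ 2)))) => h1 X)
    have h3 : ∑ X : Fin m → Fin (m ^ 2), (if X ∈ good then (2 : ℤ) else 0) = 2 * good.card := by
      rw [← Finset.sum_filter, Finset.sum_const, nsmul_eq_mul, mul_comm]
      congr 2
      congr 1
      ext X; simp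
    rw [h3, Finset.sum_sub_distrib, ← Finset.mul_sum, Finset.sum_comm] at h2
    have h4 : ∑ p ∈ P, ∑ X, I p X = S₁ := Finset.sum_congr rfl fun p _ => hsumI p
    rw [h4] at h2
    have h5 : ∑ X : Fin m → Fin (m ^ 2), (∑ p ∈ P, I p X) ^ 2
        = ∑ p ∈ P, ∑ p' ∈ P, ∑ X, I p X * I p' X := by
      have h6 : ∀ X : Fin m → Fin (m ^ 2), (∑ p ∈ P, I p X) ^ 2
          = ∑ p ∈ P, ∑ p' ∈ P, I p X * I p' X := by
        intro X
        rw [sq, Finset.sum_mul_sum]
      rw [Finset.sum_congr rfl (fun X _ => h6 X), Finset.sum_comm]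
      refine Finset.sum_congr rfl fun p _ => ?_
      rw [Finset.sum_comm]
    rw [h5] at h2
    have h7 := Finset.sum_le_sum hsec
    rw [Finset.sum_add_distrib, Finset.sum_const, nsmul_eq_mul] at h7
    linarith
  -- first moment
  have hfirst : 3 * ((m : ℝ) ^ 2) ^ m ≤ 8 * (S₁ : ℝ) := by
    refine (num1 hm).trans ?_
    have hm1 : (m : ℝ) * (m - 1) / 2 = P.card := by
      have h1 : (2 : ℝ) * P.card = m * (m - 1) := by
        have h2 : ((2 * P.card : ℕ) : ℝ) = ((m * (m - 1) : ℕ) : ℝ) := by rw [hPcard]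
        push_cast at h2
        rw [Nat.cast_sub (by omega)] at h2
        push_cast at h2
        exact h2
      linarith
    rw [hm1]
    have h2 : ∀ p ∈ P, 7 * (m : ℝ) ^ 2 * ((m : ℝ) ^ 2 - 1) ^ (m - 2) ≤ 8 * (d p : ℝ) := by
      intro p hp
      have h3 := card_D_ge hm B hB (Finset.mem_filter.mp hp).2.ne
      have h4 : ((7 * m ^ 2 * (m ^ 2 - 1) ^ (m - 2) : ℕ) : ℝ)
          ≤ ((8 * (Finset.univ.filter (fun X : Fin m → Fin (m ^ 2) => D B p X)).card : ℕ) : ℝ) :=
        Nat.cast_le.mpr h3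
      push_cast at h4
      rw [Nat.cast_sub (Nat.one_le_pow _ _ (by omega))] at h4
      push_cast at h4
      simp only [hd]
      push_cast
      exact h4
    have h3 := Finset.sum_le_sum h2
    rw [Finset.sum_const, nsmul_eq_mul, ← Finset.mul_sum] at h3
    rw [hS₁]
    push_cast
    exact h3
  -- conclusion
  have hmainR : 2 * (S₁ : ℝ) - (P.card : ℝ) * ((P.card : ℝ) * ((m : ℝ) ^ 2) ^ (m - 2))
      ≤ 2 * (good.card : ℝ) := by
    have h1 : (2 * S₁ - (P.card : ℤ) * ((P.card : ℤ) * (((m ^ 2) ^ (m - 2) : ℕ) : ℤ)) : ℤ)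
      ≤ 2 * (good.card : ℤ) := by linarith
    have h2 : ((2 * S₁ - (P.card : ℤ) * ((P.card : ℤ) * (((m ^ 2) ^ (m - 2) : ℕ) : ℤ)) : ℤ) : ℝ)
      ≤ ((2 * (good.card : ℤ) : ℤ) : ℝ) := Int.cast_le.mpr h1
    push_cast at h2
    exact h2
  have hPle : (P.card : ℝ) ≤ (m : ℝ) ^ 2 / 2 := by
    have h1 : (2 : ℝ) * P.card = m * (m - 1) := by
      have h2 : ((2 * P.card : ℕ) : ℝ) = ((m * (m - 1) : ℕ) : ℝ) := by rw [hPcard]
      push_cast at h2
      rw [Nat.cast_sub (by omega)] at h2
      push_cast at h2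
      exact h2
    have hm0 : (0 : ℝ) ≤ m := Nat.cast_nonneg m
    nlinarith
  have hPP : (P.card : ℝ) * ((P.card : ℝ) * ((m : ℝ) ^ 2) ^ (m - 2)) ≤ ((m : ℝ) ^ 2) ^ m / 4 := by
    have h1 : ((m : ℝ) ^ 2) ^ m = ((m : ℝ) ^ 2) ^ (m - 2) * ((m : ℝ) ^ 2) ^ 2 := by
      rw [← pow_add]; congr 1; omega
    rw [h1]
    have h2 : (0 : ℝ) ≤ P.card := Nat.cast_nonneg _
    have h3 : (P.card : ℝ) * P.card ≤ ((m : ℝ) ^ 2 / 2) * ((m : ℝ) ^ 2 / 2) :=
      mul_le_mul hPle hPle h2 (by positivity)
    have h4 : (0 : ℝ) ≤ ((m : ℝ) ^ 2) ^ (m - 2) := by positivity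
    nlinarith [mul_le_mul_of_nonneg_right h3 h4]
  have hfin : ((m : ℝ) ^ 2) ^ m ≤ 4 * (good.card : ℝ) := by linarith
  exact_mod_cast hfin

end Pool.Agent.H32.Hom
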