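import Mathlib
import Pool.Agent.H32.Hom.Defs

/-!
# Homogeneous colourings: facts about blocks and the relation `Rel`
-/

namespace Pool.Agent.H32.Hom

variable {V : Type}

theorem Blocks.st_of_pos {f : Equiv.Perm V} {L : ℕ} {st : V → V} {pos : V → ℕ}
    (hB : Blocks f L st pos) {v : V} (h : pos v = 0) : st v = v := by
  have := hB.eq_pow v
  rw [h] at this
  simpa using this

theorem Blocks.st_pos_pow {f : Equiv.Perm V} {L : ℕ} {st : V → V} {pos : V → ℕ}
    (hB : Blocks f L st pos) {s : V} (hs : st s = s) :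
    ∀ t : ℕ, t < L → st ((f ^ t) s) = s ∧ pos ((f ^ t) s) = t := by
  intro t
  induction t with
  | zero =>
    intro _
    refine ⟨by simpa using hs, ?_⟩
    have := hB.pos_st s
    rw [hs] at this
    simpa using this
  | succ t ih =>
    intro ht
    obtain ⟨h1, h2⟩ := ih (by omega)
    have h3 : (f ^ (t + 1)) s = f ((f ^ t) s) := by
      rw [pow_succ']; rfl
    rw [h3]
    rcases hB.next ((f ^ t) s) with h | h
    · exact ⟨h.1.trans h1, by rw [h.2, h2]⟩
    · exfalso
      have := h.2.2.2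
      omega

theorem Blocks.st_pow {f : Equiv.Perm V} {L : ℕ} {st : V → V} {pos : V → ℕ}
    (hB : Blocks f L st pos) {s : V} (hs : st s = s) {t : ℕ} (ht : t < L) :
    st ((f ^ t) s) = s := (hB.st_pos_pow hs t ht).1

theorem Blocks.pos_pow {f : Equiv.Perm V} {L : ℕ} {st : V → V} {pos : V → ℕ}
    (hB : Blocks f L st pos) {s : V} (hs : st s = s) {t : ℕ} (ht : t < L) :
    pos ((f ^ t) s) = t := (hB.st_pos_pow hs t ht).2

theorem bk_st {f : Equiv.Perm V} {L : ℕ} {st : V → V} {pos : V → ℕ}
    (hB : Blocks f L st pos) (v : V) : st (bk f st v) = bk f st v := hB.st_st _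

/-- `x` is obtained from any of its three blocks by a power of `f`. -/
theorem In3.pow {f : Equiv.Perm V} {L : ℕ} {st : V → V} {pos : V → ℕ}
    (hB : Blocks f L st pos) {x a : V} (h : In3 f st x a) :
    ∃ k : ℕ, k < 9 * L ∧ (f ^ k) a = x := by
  have hbk : ∀ v : V, (f ^ (pos v + (pos (f.symm (st v)) + 1))) (bk f st v) = v := by
    intro v
    have h1 := hB.eq_pow (f.symm (st v))
    have h2 : (f ^ (pos (f.symm (st v)) + 1)) (bk f st v) = st v := by
      rw [pow_succ']
      show f ((f ^ (pos (f.symm (st v)))) (st (f.symm (st v)))) = st v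
      rw [h1]; simp
    rw [pow_add, Equiv.Perm.mul_apply, h2, hB.eq_pow]
  have hpos : ∀ v, pos (f.symm (st v)) + 1 ≤ 3 * L := fun v => hB.pos_lt _
  have hst0 : ∀ v, pos (bk f st v) = 0 := fun v => hB.pos_st _
  rcases h with h | h | h
  · refine ⟨pos x, ?_, by rw [h]; exact hB.eq_pow x⟩
    have := hB.pos_lt x; omega
  · refine ⟨pos x + (pos (f.symm (st x)) + 1), ?_, by rw [h]; exact hbk x⟩
    have := hB.pos_lt x; have := hpos x; omega
  · refine ⟨(pos x + (pos (f.symm (st x)) + 1)) +
      (pos (bk f st x) + (pos (f.symm (st (bk f st x))) + 1)), ?_, ?_⟩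
    · have := hB.pos_lt x; have := hpos x; have := hpos (bk f st x); have := hst0 x; omega
    · rw [h, pow_add, Equiv.Perm.mul_apply, hbk, hbk]

theorem rel_symm (f : Equiv.Perm V) (mt st : V → V) (hinv : ∀ v, mt (mt v) = v) {a b : V}
    (h : Rel f mt st a b) : Rel f mt st b a := by
  obtain ⟨x, ha, hb | hb⟩ := h
  · exact ⟨x, hb, Or.inl ha⟩
  · exact ⟨mt x, hb, Or.inr (by rw [hinv]; exact ha)⟩

theorem rel_finset [Finite V] (f : Equiv.Perm V) (mt st : V → V) (pos : V → ℕ) (L : ℕ)
    (hB : Blocks f L st pos) (a : V) :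
    ∃ T : Finset V, (∀ b, Rel f mt st a b → b ∈ T) ∧ T.card ≤ 54 * L := by
  classical
  let c3 : V → Finset V := fun x => {st x, bk f st x, bk f st (bk f st x)}
  have hc3 : ∀ x b, In3 f st x b → b ∈ c3 x := by
    intro x b h
    simp only [c3, Finset.mem_insert, Finset.mem_singleton]
    exact h
  have hcard : ∀ x, (c3 x).card ≤ 3 := fun x => Finset.card_le_three
  refine ⟨(Finset.range (9 * L)).biUnion (fun k => c3 ((f ^ k) a) ∪ c3 (mt ((f ^ k) a))), ?_, ?_⟩
  · rintro b ⟨x, ha, hb⟩
    obtain ⟨k, hk, hk'⟩ := In3.pow hB ha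
    refine Finset.mem_biUnion.mpr ⟨k, Finset.mem_range.mpr hk, ?_⟩
    rw [hk']
    rcases hb with hb | hb
    · exact Finset.mem_union_left _ (hc3 _ _ hb)
    · exact Finset.mem_union_right _ (hc3 _ _ hb)
  · refine Finset.card_biUnion_le.trans ?_
    calc ∑ k ∈ Finset.range (9 * L), (c3 ((f ^ k) a) ∪ c3 (mt ((f ^ k) a))).card
        ≤ ∑ _k ∈ Finset.range (9 * L), 6 := by
          apply Finset.sum_le_sum
          intro k _
          refine (Finset.card_union_le _ _).trans ?_
          have := hcard ((f ^ k) a)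
          have := hcard (mt ((f ^ k) a))
          omega
      _ = 54 * L := by rw [Finset.sum_const, Finset.card_range, smul_eq_mul]; ring

end Pool.Agent.H32.Hom
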