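import Mathlib
import Pool.Agent.H32.Hom.Rel

/-!
# Homogeneous colourings: consequences of large girth for the blocks
-/

namespace Pool.Agent.H32.Hom

variable {V : Type}

theorem sg_in3 (f : Equiv.Perm V) (st : V → V) (pos : V → ℕ) (w : ℕ) (p : V → ℕ) (v : V) :
    In3 f st v (sg f st pos w p v) := by
  unfold sg In3
  split_ifs
  · exact Or.inr (Or.inl rfl)
  · exact Or.inr (Or.inr rfl)
  · exact Or.inl rfl

theorem In3.near {f : Equiv.Perm V} {L : ℕ} {st : V → V} {pos : V → ℕ}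
    (hB : Blocks f L st pos) {x y a : V} (h : In3 f st x a) (h' : In3 f st y a) :
    ∃ k : ℤ, |k| ≤ 9 * L ∧ (f ^ k) x = y := by
  obtain ⟨k, hk, hkx⟩ := h.pow hB
  obtain ⟨l, hl, hly⟩ := h'.pow hB
  refine ⟨(l : ℤ) - k, ?_, ?_⟩
  · rw [abs_le]; omega
  · rw [sub_eq_add_neg, zpow_add, Equiv.Perm.mul_apply, ← hkx]
    have : (f ^ (-(k : ℤ))) ((f ^ k) a) = a := by
      rw [← zpow_natCast f k, ← Equiv.Perm.mul_apply, ← zpow_add]; simp
    rw [this, ← hly]; simp

theorem near_of_st {f : Equiv.Perm V} {L : ℕ} {st : V → V} {pos : V → ℕ}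
    (hB : Blocks f L st pos) {x y : V} (h : st y = st x) :
    ∃ k : ℤ, |k| ≤ 9 * L ∧ (f ^ k) x = y :=
  In3.near hB (a := st x) (Or.inl rfl) (Or.inl h.symm)

theorem Far.c1 {f : Equiv.Perm V} {mt : V → V} {n : ℤ} (hF : Far f mt n) (v : V) (d k : ℤ)
    (hd : d ≠ 0) (hdn : |d| ≤ n) (hk : |k| ≤ n) : (f ^ k) (mt v) ≠ mt ((f ^ d) v) := by
  intro h
  have h1 : mt ((f ^ k) (mt v)) = (f ^ d) v := by rw [h, hF.invol]
  have h2 : (f ^ (-d)) (mt ((f ^ k) (mt v))) = v := by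
    rw [h1, ← Equiv.Perm.mul_apply, ← zpow_add]; simp
  by_cases hk0 : k = 0
  · subst hk0
    apply hF.w0 v (-d) (by omega) (by rwa [abs_neg])
    simpa [hF.invol] using h2
  · exact hF.w2 v k (-d) hk0 hk (by rwa [abs_neg]) h2

theorem Far.c2 {f : Equiv.Perm V} {mt : V → V} {n : ℤ} (hF : Far f mt n) (v : V) (d k l : ℤ)
    (hd : |d| + |l| ≤ n) (hk : |k| + |d| ≤ n) :
    (f ^ l) (mt ((f ^ k) (mt v))) ≠ mt ((f ^ d) v) := by
  intro h
  have hdn : |d| ≤ n := by have := abs_nonneg l; omega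
  have hln : |l| ≤ n := by have := abs_nonneg d; omega
  have hkn : |k| ≤ n := by have := abs_nonneg d; omega
  by_cases hk0 : k = 0
  · subst hk0
    -- f^l v = mt (f^d v)
    have h1 : (f ^ l) v = mt ((f ^ d) v) := by simpa [hF.invol] using h
    have h2 : (f ^ (d - l)) (mt ((f ^ d) v)) = (f ^ d) v := by
      rw [← h1, ← Equiv.Perm.mul_apply, ← zpow_add]; simp
    refine hF.w1 ((f ^ d) v) (d - l) ?_ h2
    exact (abs_sub d l).trans hd
  · by_cases hl0 : l = 0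
    · subst hl0
      have h1 : (f ^ k) (mt v) = (f ^ d) v := by
        have : mt (mt ((f ^ k) (mt v))) = mt (mt ((f ^ d) v)) := congrArg mt (by simpa using h)
        simpa [hF.invol] using this
      have h2 : (f ^ (k - d)) (mt v) = v := by
        have : (f ^ (k - d)) (mt v) = (f ^ (-d)) ((f ^ k) (mt v)) := by
          rw [← Equiv.Perm.mul_apply, ← zpow_add]; congr 2; ring
        rw [this, h1, ← Equiv.Perm.mul_apply, ← zpow_add]; simp
      refine hF.w1 v (k - d) ?_ h2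
      exact (abs_sub k d).trans hk
    · have h1 : mt ((f ^ l) (mt ((f ^ k) (mt v)))) = (f ^ d) v := by rw [h, hF.invol]
      have h2 : (f ^ (-d)) (mt ((f ^ l) (mt ((f ^ k) (mt v))))) = v := by
        rw [h1, ← Equiv.Perm.mul_apply, ← zpow_add]; simp
      exact hF.w3 v k l (-d) hk0 hl0 hkn hln (by rwa [abs_neg]) h2

variable {f : Equiv.Perm V} {mt st : V → V} {pos : V → ℕ} {L : ℕ}

theorem bk_pow (hB : Blocks f L st pos) (v : V) :
    ∃ k : ℕ, 0 < k ∧ k ≤ 3 * L ∧ (f ^ k) (bk f st v) = st v := by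
  refine ⟨pos (f.symm (st v)) + 1, by omega, hB.pos_lt _, ?_⟩
  have h1 := hB.eq_pow (f.symm (st v))
  rw [pow_succ']
  show f ((f ^ (pos (f.symm (st v)))) (st (f.symm (st v)))) = st v
  rw [h1]; simp

theorem st_ne_bk (hB : Blocks f L st pos) (hF : Far f mt (60 * L)) (x : V) :
    st x ≠ bk f st x := by
  intro h
  obtain ⟨k, hk0, hk, hk'⟩ := bk_pow hB x
  rw [← h] at hk'
  refine hF.w0 (st x) k (by omega) ?_ (by simpa using hk')
  rw [abs_of_nonneg (by omega)]; omega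

theorem bk_ne_bk (hB : Blocks f L st pos) (hF : Far f mt (60 * L)) (x : V) :
    bk f st x ≠ bk f st (bk f st x) := by
  have h := st_ne_bk hB hF (bk f st x)
  rwa [bk_st hB] at h

theorem st_ne_bkbk (hB : Blocks f L st pos) (hF : Far f mt (60 * L)) (x : V) :
    st x ≠ bk f st (bk f st x) := by
  intro h
  obtain ⟨k, hk0, hk, hk'⟩ := bk_pow hB x
  obtain ⟨l, hl0, hl, hl'⟩ := bk_pow hB (bk f st x)
  rw [← h, bk_st hB] at hl'
  have h2 : (f ^ (k + l)) (st x) = st x := by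
    rw [pow_add, Equiv.Perm.mul_apply, hl', hk']
  refine hF.w0 (st x) ((k + l : ℕ) : ℤ) (by omega) ?_ ?_
  · rw [abs_of_nonneg (by omega)]; omega
  · rw [zpow_natCast]; exact h2

/-- The blocks of a vertex and of its mate are different. -/
theorem in3_mt_ne (hB : Blocks f L st pos) (hF : Far f mt (60 * L)) {x a b : V}
    (ha : In3 f st x a) (hb : In3 f st (mt x) b) : a ≠ b := by
  rintro rfl
  obtain ⟨k, hk, hk'⟩ := In3.near hB ha hb
  refine hF.w1 x (-k) (by rw [abs_neg]; omega) ?_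
  rw [← hk', ← Equiv.Perm.mul_apply, ← zpow_add]; simp

/-- Blocks around the mates of two different vertices of a block. -/
theorem in3_ne (hB : Blocks f L st pos) (hF : Far f mt (60 * L)) {s : V} {t t' : ℕ}
    (ht : t < L) (ht' : t' < L) (hne : t ≠ t') {a b : V} (ha : In3 f st (mt ((f ^ t) s)) a)
    (hb : In3 f st (mt ((f ^ t') s)) b) : a ≠ b := by
  rintro rfl
  obtain ⟨k, hk, hk'⟩ := In3.near hB ha hb
  have h1 : (f ^ t') s = (f ^ ((t' : ℤ) - t)) ((f ^ t) s) := by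
    rw [← zpow_natCast f t, ← zpow_natCast f t', ← Equiv.Perm.mul_apply, ← zpow_add]; simp
  rw [h1] at hk'
  refine hF.c1 ((f ^ t) s) ((t' : ℤ) - t) k (by omega) ?_ (by omega) hk'
  rw [abs_le]; constructor <;> omega

theorem not_rel (hB : Blocks f L st pos) (hF : Far f mt (60 * L)) {s : V} {t t' : ℕ}
    (ht : t < L) (ht' : t' < L) (hne : t ≠ t') {a b : V} (ha : In3 f st (mt ((f ^ t) s)) a)
    (hb : In3 f st (mt ((f ^ t') s)) b) : ¬ Rel f mt st a b := by
  have h1 : (f ^ t') s = (f ^ ((t' : ℤ) - t)) ((f ^ t) s) := by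
    rw [← zpow_natCast f t, ← zpow_natCast f t', ← Equiv.Perm.mul_apply, ← zpow_add]; simp
  have hd : |(t' : ℤ) - t| ≤ L := by rw [abs_le]; constructor <;> omega
  rintro ⟨x, hxa, hxb | hxb⟩
  · obtain ⟨k, hk, hk'⟩ := In3.near hB ha hxa
    obtain ⟨l, hl, hl'⟩ := In3.near hB hxb hb
    rw [← hk', ← Equiv.Perm.mul_apply, ← zpow_add, h1] at hl'
    refine hF.c1 ((f ^ t) s) ((t' : ℤ) - t) (l + k) (by omega) (by omega) ?_ hl'
    have := abs_add_le l k
    omega
  · obtain ⟨k, hk, hk'⟩ := In3.near hB ha hxa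
    obtain ⟨l, hl, hl'⟩ := In3.near hB hxb hb
    rw [← hk', h1] at hl'
    exact hF.c2 ((f ^ t) s) ((t' : ℤ) - t) k l (by omega) (by omega) hl'

theorem not_in3_mt (hB : Blocks f L st pos) (hF : Far f mt (60 * L)) {s : V} {t t' : ℕ}
    (ht : t < L) (ht' : t' < L) {y b : V} (hy : st y = st (mt ((f ^ t) s)))
    (hb : In3 f st (mt ((f ^ t') s)) b) : ¬ In3 f st (mt y) b := by
  intro hyb
  have h1 : (f ^ t') s = (f ^ ((t' : ℤ) - t)) ((f ^ t) s) := by
    rw [← zpow_natCast f t, ← zpow_natCast f t', ← Equiv.Perm.mul_apply, ← zpow_add]; simp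
  have hd : |(t' : ℤ) - t| ≤ L := by rw [abs_le]; constructor <;> omega
  obtain ⟨k, hk, hk'⟩ := near_of_st hB hy
  obtain ⟨l, hl, hl'⟩ := In3.near hB hyb hb
  rw [← hk', h1] at hl'
  exact hF.c2 ((f ^ t) s) ((t' : ℤ) - t) k l (by omega) (by omega) hl'

end Pool.Agent.H32.Hom
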