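import Mathlib

/-!
Resampling of some coordinates (problem MP_56b853_co, module M7).
-/

namespace Pool.Agent.H32.Hom

/-- Resampling twice gives back the first coordinate. -/
lemma extend_extend_comp {ι α : Type} {m : ℕ} (e : Fin m → ι) (he : Function.Injective e)
    (ω : ι → α) (x : Fin m → α) :
    Function.extend e (ω ∘ e) (Function.extend e x ω) = ω := by
  funext i
  by_cases h : ∃ j, e j = i
  · obtain ⟨j, rfl⟩ := h
    rw [he.extend_apply]; rfl
  · rw [Function.extend_apply' _ _ _ h, Function.extend_apply' _ _ _ h]

theorem card_inter_le {ι α : Type} [Fintype ι] [DecidableEq ι] [Fintype α] [DecidableEq α]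
    {m : ℕ} (e : Fin m → ι) (he : Function.Injective e) (A F : Finset (ι → α))
    (hA : ∀ ω ∈ A, ∀ x : Fin m → α, Function.extend e x ω ∈ A)
    (hF : ∀ ω : ι → α, 4 * (Finset.univ.filter (fun x : Fin m → α =>
      Function.extend e x ω ∈ F)).card ≤ 3 * Fintype.card α ^ m) :
    4 * (A ∩ F).card ≤ 3 * A.card := by
  classical
  rcases Nat.eq_zero_or_pos (Fintype.card α ^ m) with h0 | hpos
  · have hAe : A = ∅ := by
      by_contra hne
      obtain ⟨ω, -⟩ := Finset.nonempty_iff_ne_empty.2 hne
      have h1 : Fintype.card α = 0 := by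
        by_contra h2
        exact (pow_pos (Nat.pos_of_ne_zero h2) m).ne' h0
      have h2 : m ≠ 0 := by
        rintro rfl
        simp at h0
      have h3 : IsEmpty α := Fintype.card_eq_zero_iff.1 h1
      exact h3.elim (ω (e ⟨0, Nat.pos_of_ne_zero h2⟩))
    simp [hAe]
  · set T : Finset ((ι → α) × (Fin m → α)) :=
      (A ×ˢ Finset.univ).filter (fun p => Function.extend e p.2 p.1 ∈ F) with hT
    have h1 : (A ∩ F).card * Fintype.card α ^ m ≤ T.card := by
      have h2 : (A ∩ F).card * Fintype.card α ^ m
          = ((A ∩ F) ×ˢ (Finset.univ : Finset (Fin m → α))).card := by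
        rw [Finset.card_product]; simp
      rw [h2]
      refine Finset.card_le_card_of_injOn
        (fun p => (Function.extend e p.2 p.1, p.1 ∘ e)) ?_ ?_
      · rintro ⟨ω, x⟩ hp
        simp only [Finset.coe_product, Finset.coe_univ, Set.mem_prod, Finset.mem_coe,
          Finset.mem_inter, Set.mem_univ, and_true] at hp
        simp only [hT, Finset.coe_filter, Finset.mem_product, Finset.mem_univ, and_true,
          Set.mem_ofPred_eq]
        refine ⟨hA _ hp.1 _, ?_⟩
        rw [extend_extend_comp e he]
        exact hp.2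
      · rintro ⟨ω, x⟩ - ⟨ω', x'⟩ - heq
        simp only [Prod.mk.injEq] at heq
        obtain ⟨h3, h4⟩ := heq
        have h5 : ω = ω' := by
          rw [← extend_extend_comp e he ω x, ← extend_extend_comp e he ω' x', h3, h4]
        have h6 : x = x' := by
          funext j
          have h7 := congrFun h3 (e j)
          rwa [he.extend_apply, he.extend_apply] at h7
        rw [h5, h6]
    have h2 : 4 * T.card ≤ A.card * (3 * Fintype.card α ^ m) := by
      have h3 : T.card = ∑ ω ∈ A, (Finset.univ.filter (fun x : Fin m → α =>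
          Function.extend e x ω ∈ F)).card := by
        rw [hT, Finset.card_filter, Finset.sum_product]
        refine Finset.sum_congr rfl fun ω _ => ?_
        rw [Finset.card_filter]
      rw [h3, Finset.mul_sum]
      calc ∑ ω ∈ A, 4 * (Finset.univ.filter (fun x : Fin m → α =>
            Function.extend e x ω ∈ F)).card ≤ ∑ _ω ∈ A, 3 * Fintype.card α ^ m :=
          Finset.sum_le_sum fun ω _ => hF ω
        _ = A.card * (3 * Fintype.card α ^ m) := by rw [Finset.sum_const, smul_eq_mul]
    have h3 : 4 * (A ∩ F).card * Fintype.card α ^ m ≤ 3 * A.card * Fintype.card α ^ m := by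
      calc 4 * (A ∩ F).card * Fintype.card α ^ m
          = 4 * ((A ∩ F).card * Fintype.card α ^ m) := by ring
        _ ≤ 4 * T.card := Nat.mul_le_mul_left 4 h1
        _ ≤ A.card * (3 * Fintype.card α ^ m) := h2
        _ = 3 * A.card * Fintype.card α ^ m := by ring
    exact Nat.le_of_mul_le_mul_right h3 hpos

end Pool.Agent.H32.Hom
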