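import Mathlib
import Pool.Agent.H32.Hom.Facts

/-!
# Homogeneous colourings: from the block colours with coincidences to the final block colours
-/

namespace Pool.Agent.H32.Hom

variable {V : Type}

/-- Greedy colouring of a relation in which every point has at most `D` neighbours. -/
theorem exists_greedy [Finite V] (r : V → V → Prop) (hr : ∀ a b, r a b → r b a) (D : ℕ)
    (T : V → Finset V) (hT : ∀ a b, r a b → b ∈ T a) (hTc : ∀ a, (T a).card ≤ D) :
    ∃ φ : V → Fin (D + 1), ∀ a b, a ≠ b → r a b → φ a ≠ φ b := by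
  classical
  have : Fintype V := Fintype.ofFinite V
  have key : ∀ s : Finset V, ∃ φ : V → Fin (D + 1), ∀ a ∈ s, ∀ b ∈ s, a ≠ b → r a b →
      φ a ≠ φ b := by
    intro s
    induction s using Finset.induction_on with
    | empty => exact ⟨fun _ => 0, fun a ha => by simp at ha⟩
    | insert x s hx ih =>
      obtain ⟨φ, hφ⟩ := ih
      obtain ⟨c, hc⟩ : ∃ c : Fin (D + 1), c ∉ (T x).image φ := by
        by_contra hcon
        push Not at hcon
        have h1 : (Finset.univ : Finset (Fin (D + 1))) ⊆ (T x).image φ := fun c _ => hcon c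
        have h2 := Finset.card_le_card h1
        have h3 : ((T x).image φ).card ≤ (T x).card := Finset.card_image_le
        have h4 := hTc x
        rw [Finset.card_univ, Fintype.card_fin] at h2
        omega
      have hcT : ∀ b, r x b → φ b ≠ c := by
        intro b hb h
        exact hc (Finset.mem_image.mpr ⟨b, hT x b hb, h⟩)
      refine ⟨Function.update φ x c, ?_⟩
      intro a ha b hb hab hrab
      by_cases hax : a = x
      · subst hax
        rw [Function.update_self, Function.update_of_ne hab.symm]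
        exact (hcT b hrab).symm
      · by_cases hbx : b = x
        · subst hbx
          rw [Function.update_self, Function.update_of_ne hab]
          exact hcT a (hr _ _ hrab)
        · rw [Function.update_of_ne hax, Function.update_of_ne hbx]
          exact hφ a (Finset.mem_of_mem_insert_of_ne ha hax) b
            (Finset.mem_of_mem_insert_of_ne hb hbx) hab hrab
  obtain ⟨φ, hφ⟩ := key Finset.univ
  exact ⟨φ, fun a b => hφ a (Finset.mem_univ _) b (Finset.mem_univ _)⟩

theorem kappa_of_xi [Finite V] {q : ℕ} (f : Equiv.Perm V) (mt st : V → V) (pos : V → ℕ)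
    (L w : ℕ) (p : V → ℕ) (hF : Far f mt (60 * L)) (hB : Blocks f L st pos)
    (ξ : V → Fin q)
    (hx : ∀ s, st s = s → ∃ i j, GoodPair f mt st pos w p ξ s i j) :
    ∃ κ : V → Fin q ⊕ Fin (54 * L + 1),
    (∀ x, κ (st x) ≠ κ (bk f st x) ∧ κ (st x) ≠ κ (bk f st (bk f st x)) ∧
      κ (bk f st x) ≠ κ (bk f st (bk f st x))) ∧
    (∀ x a b, In3 f st x a → In3 f st (mt x) b → κ a ≠ κ b) ∧
    (∀ s, st s = s → ∃ (i j : ℕ) (z : Fin q ⊕ Fin (54 * L + 1)), Odd i ∧ Odd j ∧ i < j ∧
      i / w = p s ∧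
      j / w = p s ∧ ¬ Win st pos w p (mt ((f ^ i) s)) ∧ ¬ Win st pos w p (mt ((f ^ j) s)) ∧
      κ (src f mt st pos w p s i) = z ∧ κ (src f mt st pos w p s j) = z ∧
      ∀ t, i < t → t < j → (∀ b, In3 f st (mt ((f ^ t) s)) b → κ b ≠ z) ∧
        (Win st pos w p (mt ((f ^ t) s)) → ∀ y, st y = st (mt ((f ^ t) s)) →
          Win st pos w p y → ¬ Win st pos w p (mt y) → κ (sg f st pos w p (mt y)) ≠ z)) := by
  classical
  choose T hT hTc using fun x => rel_finset f mt st pos L hB x
  obtain ⟨φ, hφ⟩ := exists_greedy (Rel f mt st) (fun a b => rel_symm f mt st hF.invol) (54 * L) T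
    hT hTc
  let κ : V → Fin q ⊕ Fin (54 * L + 1) := fun a =>
    if ∀ b, b ≠ a → Rel f mt st a b → ξ b ≠ ξ a then Sum.inl (ξ a) else Sum.inr (φ a)
  have hκ : ∀ a b, a ≠ b → Rel f mt st a b → κ a ≠ κ b := by
    intro a b hab hr h
    simp only [κ] at h
    split_ifs at h with h1 h2
    · exact h1 b (Ne.symm hab) hr (Sum.inl_injective h).symm
    · exact hφ a b hab hr (Sum.inr_injective h)
  have hne : ∀ b z, ξ b ≠ z → κ b ≠ Sum.inl z := by
    intro b z hb h
    simp only [κ] at h
    split_ifs at h with h1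
    exact hb (Sum.inl_injective h)
  refine ⟨κ, ?_, ?_, ?_⟩
  · intro x
    refine ⟨hκ _ _ (st_ne_bk hB hF x) ⟨x, Or.inl rfl, Or.inl (Or.inr (Or.inl rfl))⟩,
      hκ _ _ (st_ne_bkbk hB hF x) ⟨x, Or.inl rfl, Or.inl (Or.inr (Or.inr rfl))⟩,
      hκ _ _ (bk_ne_bk hB hF x) ⟨x, Or.inr (Or.inl rfl), Or.inl (Or.inr (Or.inr rfl))⟩⟩
  · intro x a b ha hb
    exact hκ a b (in3_mt_ne hB hF ha hb) ⟨x, ha, Or.inr hb⟩
  · intro s hs
    obtain ⟨i, j, hg⟩ := hx s hs
    refine ⟨i, j, Sum.inl (ξ (src f mt st pos w p s i)), hg.oi, hg.oj, hg.lt, hg.wi, hg.wj,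
      hg.ni, hg.nj, ?_, ?_, ?_⟩
    · simp only [κ]
      rw [if_pos]
      exact fun b hb hr => hg.ri b hb hr
    · simp only [κ]
      rw [if_pos]
      · rw [hg.eq]
      · intro b hb hr
        rw [hg.eq]
        exact hg.rj b hb hr
    · intro t ht ht'
      refine ⟨fun b hb => hne b _ (hg.mid t ht ht' b hb), ?_⟩
      intro hW y hy hWy hWm
      exact hne _ _ (hg.win t ht ht' hW y hy hWy hWm)

end Pool.Agent.H32.Hom
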