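import Mathlib

namespace Pool.Agent.H32.Hom

theorem exists_numbers : ∃ m G R A : ℕ, 16 ≤ m ∧ 0 < G ∧ 0 < R ∧ A ≤ m ∧
    16 * (54 * (4 * m * G * R + 1) + 12 * m + A * (4 * m * G)) ≤ m ^ 2 ∧
    4 * 3 ^ G * (54 * (4 * m * G * R + 1)) ^ 4 ≤ 4 ^ G ∧
    4 * R * (4 * m * G).choose A * (54 * (4 * m * G * R + 1)) ^ 2 ≤ R ^ A := by
  have ht := tendsto_pow_const_mul_const_pow_of_abs_lt_one 44
    (r := (3 / 4 : ℝ)) (by rw [abs_of_pos (by norm_num)]; norm_num)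
  have hev := ht.eventually (gt_mem_nhds (show (0 : ℝ) < 1 / (4 * 270 ^ 4) by norm_num))
  obtain ⟨K, hK1, hK2⟩ := (hev.and (Filter.eventually_ge_atTop 10000)).exists
  have hKr : (10000 : ℝ) ≤ K := by exact_mod_cast hK2
  have hK0 : (0 : ℝ) < K := by linarith
  have hKn : 0 < K := by omega
  have hmain : 4 * 270 ^ 4 * (K : ℝ) ^ 44 * (3 / 4 : ℝ) ^ K ≤ 1 := by
    have : (K : ℝ) ^ 44 * (3 / 4 : ℝ) ^ K ≤ 1 / (4 * 270 ^ 4) := hK1.le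
    rw [le_div_iff₀ (by norm_num)] at this
    linarith
  have hLK : 4 * K ^ 6 * K * K ^ 4 = 4 * K ^ 11 := by ring
  have hL : 54 * (4 * K ^ 6 * K * K ^ 4 + 1) ≤ 270 * K ^ 11 := by
    rw [hLK]
    have : 1 ≤ K ^ 11 := Nat.one_le_pow _ _ hKn
    omega
  refine ⟨K ^ 6, K, K ^ 4, K ^ 4, ?_, hKn, by positivity, ?_, ?_, ?_, ?_⟩
  · calc 16 ≤ K := by omega
      _ = K ^ 1 := (pow_one K).symm
      _ ≤ K ^ 6 := Nat.pow_le_pow_right hKn (by norm_num)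
  · exact Nat.pow_le_pow_right hKn (by norm_num)
  · have h1 : K ^ 6 ≤ K ^ 11 := Nat.pow_le_pow_right hKn (by norm_num)
    have h2 : K ^ 4 * (4 * K ^ 6 * K) = 4 * K ^ 11 := by ring
    have h3 : (K ^ 6) ^ 2 = K * K ^ 11 := by ring
    have h4 : 10000 * K ^ 11 ≤ K * K ^ 11 := Nat.mul_le_mul_right _ hK2
    rw [h2, h3]
    omega
  · have h1 : (4 * 3 ^ K * (270 * K ^ 11) ^ 4 : ℝ) ≤ 4 ^ K := by
      have h2 : (3 / 4 : ℝ) ^ K = 3 ^ K / 4 ^ K := by rw [div_pow]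
      rw [h2, mul_div_assoc', div_le_one (by positivity)] at hmain
      calc (4 * 3 ^ K * (270 * K ^ 11) ^ 4 : ℝ) = 4 * 270 ^ 4 * (K : ℝ) ^ 44 * 3 ^ K := by ring
        _ ≤ 4 ^ K := hmain
    have h2 : 4 * 3 ^ K * (270 * K ^ 11) ^ 4 ≤ 4 ^ K := by exact_mod_cast h1
    exact (Nat.mul_le_mul_left _ (Nat.pow_le_pow_left hL 4)).trans h2
  · -- the binomial bound
    have h4 : (4 * K ^ 4 * ((4 * K ^ 6 * K).choose (K ^ 4)) * (270 * K ^ 11) ^ 2 : ℝ) ≤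
        ((K : ℝ) ^ 4) ^ (K ^ 4) := by
      have hch : (((4 * K ^ 6 * K).choose (K ^ 4) : ℕ) : ℝ) ≤
          ((4 * K ^ 6 * K : ℕ) : ℝ) ^ (K ^ 4) / ((K ^ 4).factorial : ℝ) :=
        Nat.choose_le_pow_div _ _
      have hw : ((4 * K ^ 6 * K : ℕ) : ℝ) = (4 * (K : ℝ) ^ 3) * (K : ℝ) ^ 4 := by
        push_cast; ring
      rw [hw, mul_pow] at hch
      have hexp : (8 * (K : ℝ) ^ 3) ^ (K ^ 4) / ((K ^ 4).factorial : ℝ) ≤
          Real.exp (8 * (K : ℝ) ^ 3) :=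
        Real.pow_div_factorial_le_exp _ (by positivity) _
      have he : Real.exp (8 * (K : ℝ) ^ 3) ≤ 4 ^ (8 * K ^ 3) := by
        have h1 : Real.exp (8 * (K : ℝ) ^ 3) = Real.exp 1 ^ (8 * K ^ 3) := by
          rw [← Real.exp_nat_mul]; push_cast; ring_nf
        rw [h1]
        exact pow_le_pow_left₀ (Real.exp_pos 1).le (by linarith [Real.exp_one_lt_d9]) _
      have h2A : (8 * (K : ℝ) ^ 3) ^ (K ^ 4) = 2 ^ (K ^ 4) * (4 * (K : ℝ) ^ 3) ^ (K ^ 4) := by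
        rw [← mul_pow]; ring_nf
      -- 4 ^ (8 K^3) ≤ 2 ^ (K^4) * (3/4)^K
      have hpow : (4 : ℝ) ^ (8 * K ^ 3) ≤ 2 ^ (K ^ 4) * (3 / 4) ^ K := by
        have h1 : (4 : ℝ) ^ (8 * K ^ 3) = 2 ^ (16 * K ^ 3) := by
          rw [show (4 : ℝ) = 2 ^ 2 by norm_num, ← pow_mul]; congr 1; ring
        have h2 : (1 : ℝ) ≤ 2 ^ K * (3 / 4) ^ K := by
          rw [← mul_pow]; exact one_le_pow₀ (by norm_num)
        have h3 : 16 * K ^ 3 + K ≤ K ^ 4 := by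
          have h5 : K ^ 4 = K * K ^ 3 := by ring
          have h6 : K ≤ K ^ 3 := by
            calc K = K ^ 1 := (pow_one K).symm
              _ ≤ K ^ 3 := Nat.pow_le_pow_right hKn (by norm_num)
          have h7 : 17 * K ^ 3 ≤ K * K ^ 3 := Nat.mul_le_mul_right _ (by omega)
          omega
        calc (4 : ℝ) ^ (8 * K ^ 3) = 2 ^ (16 * K ^ 3) * 1 := by rw [h1, mul_one]
          _ ≤ 2 ^ (16 * K ^ 3) * (2 ^ K * (3 / 4) ^ K) :=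
              mul_le_mul_of_nonneg_left h2 (by positivity)
          _ = 2 ^ (16 * K ^ 3 + K) * (3 / 4) ^ K := by rw [pow_add]; ring
          _ ≤ 2 ^ (K ^ 4) * (3 / 4) ^ K :=
              mul_le_mul_of_nonneg_right (pow_le_pow_right₀ (by norm_num) h3) (by positivity)
      have hf : (0 : ℝ) < ((K ^ 4).factorial : ℝ) := by exact_mod_cast Nat.factorial_pos _
      have hfin : (4 * (K : ℝ) ^ 3) ^ (K ^ 4) / ((K ^ 4).factorial : ℝ) ≤ (3 / 4) ^ K := by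
        have h1 : 2 ^ (K ^ 4) * ((4 * (K : ℝ) ^ 3) ^ (K ^ 4) / ((K ^ 4).factorial : ℝ)) ≤
            2 ^ (K ^ 4) * (3 / 4) ^ K := by
          calc 2 ^ (K ^ 4) * ((4 * (K : ℝ) ^ 3) ^ (K ^ 4) / ((K ^ 4).factorial : ℝ))
              = (8 * (K : ℝ) ^ 3) ^ (K ^ 4) / ((K ^ 4).factorial : ℝ) := by rw [h2A]; ring
            _ ≤ Real.exp (8 * (K : ℝ) ^ 3) := hexp
            _ ≤ 4 ^ (8 * K ^ 3) := he
            _ ≤ _ := hpow
        exact le_of_mul_le_mul_left h1 (by positivity)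
      have hch2 : (((4 * K ^ 6 * K).choose (K ^ 4) : ℕ) : ℝ) ≤
          (3 / 4) ^ K * ((K : ℝ) ^ 4) ^ (K ^ 4) := by
        refine hch.trans ?_
        rw [mul_div_right_comm]
        exact mul_le_mul_of_nonneg_right hfin (by positivity)
      have h26 : 4 * (K : ℝ) ^ 4 * (270 * (K : ℝ) ^ 11) ^ 2 * (3 / 4) ^ K ≤ 1 := by
        have h1 : (K : ℝ) ^ 26 ≤ (K : ℝ) ^ 44 :=
          pow_le_pow_right₀ (by linarith) (by norm_num)
        have h2 : 4 * (K : ℝ) ^ 4 * (270 * (K : ℝ) ^ 11) ^ 2 ≤ 4 * 270 ^ 4 * (K : ℝ) ^ 44 := by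
          calc 4 * (K : ℝ) ^ 4 * (270 * (K : ℝ) ^ 11) ^ 2 = 4 * 270 ^ 2 * (K : ℝ) ^ 26 := by ring
            _ ≤ 4 * 270 ^ 2 * (K : ℝ) ^ 44 := mul_le_mul_of_nonneg_left h1 (by norm_num)
            _ ≤ 4 * 270 ^ 4 * (K : ℝ) ^ 44 :=
              mul_le_mul_of_nonneg_right (by norm_num) (by positivity)
        exact (mul_le_mul_of_nonneg_right h2 (by positivity)).trans hmain
      calc (4 * K ^ 4 * ((4 * K ^ 6 * K).choose (K ^ 4)) * (270 * K ^ 11) ^ 2 : ℝ)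
          = (4 * (K : ℝ) ^ 4 * (270 * (K : ℝ) ^ 11) ^ 2) *
            (((4 * K ^ 6 * K).choose (K ^ 4) : ℕ) : ℝ) := by ring
        _ ≤ (4 * (K : ℝ) ^ 4 * (270 * (K : ℝ) ^ 11) ^ 2) *
            ((3 / 4) ^ K * ((K : ℝ) ^ 4) ^ (K ^ 4)) :=
            mul_le_mul_of_nonneg_left hch2 (by positivity)
        _ = (4 * (K : ℝ) ^ 4 * (270 * (K : ℝ) ^ 11) ^ 2 * (3 / 4) ^ K) *
            ((K : ℝ) ^ 4) ^ (K ^ 4) := by ring
        _ ≤ 1 * ((K : ℝ) ^ 4) ^ (K ^ 4) := mul_le_mul_of_nonneg_right h26 (by positivity)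
        _ = _ := one_mul _
    have h5 : 4 * K ^ 4 * ((4 * K ^ 6 * K).choose (K ^ 4)) * (270 * K ^ 11) ^ 2 ≤
        (K ^ 4) ^ (K ^ 4) := by exact_mod_cast h4
    exact (Nat.mul_le_mul_left _ (Nat.pow_le_pow_left hL 2)).trans h5

end Pool.Agent.H32.Hom
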