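import Mathlib
import Pool.Agent.H32.Hom.Defs

/-!
# The two-factor left by a perfect matching of a cubic graph, oriented
-/

namespace Pool.Agent.H32.Hom

variable {V : Type}

/-- A cubic graph with a perfect matching: the mates form an involution `mt`, and the other two
neighbours of every vertex are `f v` and `f.symm v` for a permutation `f`. -/
theorem exists_desc [Finite V] (G : SimpleGraph V)
    (h3 : ∀ v, (G.neighborSet v).ncard = 3) (M : G.Subgraph) (hM : M.IsPerfectMatching) :
    ∃ (f : Equiv.Perm V) (mt : V → V), Desc G f mt := by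
  classical
  have : Fintype V := Fintype.ofFinite V
  -- the mates
  have hex : ∀ v, ∃ w, M.Adj v w ∧ ∀ y, M.Adj v y → y = w := by
    intro v
    exact hM.1 (hM.2 v)
  choose mt hmt hmu using hex
  have hinv : ∀ v, mt (mt v) = v := fun v => (hmu (mt v) v (hmt v).symm).symm
  have hadj : ∀ v, G.Adj v (mt v) := fun v => M.adj_sub (hmt v)
  -- the other two neighbours
  set F : V → Finset V := fun v => Finset.univ.filter (fun w => G.Adj v w ∧ w ≠ mt v) with hF
  have memF : ∀ v w, w ∈ F v ↔ G.Adj v w ∧ w ≠ mt v := by
    intro v w
    simp [hF]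
  have symF : ∀ v w, w ∈ F v → v ∈ F w := by
    intro v w h
    rw [memF] at h ⊢
    refine ⟨h.1.symm, ?_⟩
    intro hv
    apply h.2
    rw [hv, hinv]
  have neF : ∀ v w, w ∈ F v → w ≠ v := by
    intro v w h
    rw [memF] at h
    exact h.1.ne'
  have hN : ∀ v, (G.neighborSet v) = insert (mt v) (F v : Set V) := by
    intro v
    ext w
    simp only [SimpleGraph.mem_neighborSet, Set.mem_insert_iff, Finset.mem_coe, memF]
    constructor
    · intro h
      by_cases hw : w = mt v
      · exact Or.inl hw
      · exact Or.inr ⟨h, hw⟩
    · rintro (h | h)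
      · rw [h]
        exact hadj v
      · exact h.1
  have cardF : ∀ v, (F v).card = 2 := by
    intro v
    have h := h3 v
    rw [hN v, Set.ncard_insert_of_notMem (by simp [memF]), Set.ncard_coe_finset] at h
    omega
  -- the edges of the two-factor at `v`
  set t : V → Finset (Sym2 V) := fun v => (F v).image (fun w => s(v, w)) with ht
  have memt : ∀ v e, e ∈ t v ↔ ∃ w ∈ F v, s(v, w) = e := by
    intro v e
    simp [ht]
  have cardt : ∀ v, (t v).card = 2 := by
    intro v
    rw [ht]
    dsimp only
    rw [Finset.card_image_of_injective _ (by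
      intro a b hab
      exact Sym2.congr_right.1 hab), cardF]
  have hall : ∀ s : Finset V, s.card ≤ (s.biUnion t).card := by
    intro s
    have h1 : s.card * 2 ≤ (s.biUnion t).card * 2 := by
      refine Finset.card_mul_le_card_mul (fun (v : V) (e : Sym2 V) => e ∈ t v) ?_ ?_
      · intro v hv
        rw [← cardt v]
        apply Finset.card_le_card
        intro e he
        rw [Finset.mem_bipartiteAbove]
        exact ⟨Finset.mem_biUnion.2 ⟨v, hv, he⟩, he⟩
      · intro e he
        obtain ⟨v, hv, hev⟩ := Finset.mem_biUnion.1 he
        obtain ⟨w, hw, rfl⟩ := (memt v e).1 hev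
        have hsub : Finset.bipartiteBelow (fun (v : V) (e : Sym2 V) => e ∈ t v) s s(v, w)
            ⊆ ({v, w} : Finset V) := by
          intro x hx
          rw [Finset.mem_bipartiteBelow] at hx
          obtain ⟨y, hy, hxy⟩ := (memt x _).1 hx.2
          rw [Sym2.eq_iff] at hxy
          rcases hxy with ⟨h, _⟩ | ⟨h, _⟩
          · simp [h]
          · simp [h]
        exact (Finset.card_le_card hsub).trans Finset.card_le_two
    omega
  obtain ⟨e, einj, he⟩ := (Finset.all_card_le_biUnion_card_iff_exists_injective t).1 hall
  have hfx : ∀ v, ∃ w ∈ F v, s(v, w) = e v := fun v => (memt v _).1 (he v)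
  choose f hfF hfe using hfx
  have finj : Function.Injective f := by
    intro v v' hvv
    by_contra hne
    have h1 : v ∈ F (f v) := symF _ _ (hfF v)
    have h2 : v' ∈ F (f v) := by
      rw [hvv]
      exact symF _ _ (hfF v')
    have hFw : F (f v) = {v, v'} := by
      symm
      apply Finset.eq_of_subset_of_card_le
      · intro x hx
        rcases Finset.mem_insert.1 hx with h | h
        · rw [h]; exact h1
        · rw [Finset.mem_singleton.1 h]; exact h2
      · rw [cardF, Finset.card_pair hne]
    have h3 : f (f v) ∈ F (f v) := hfF (f v)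
    rw [hFw, Finset.mem_insert, Finset.mem_singleton] at h3
    rcases h3 with h | h
    · have h4 : e (f v) = e v := by
        rw [← hfe (f v), ← hfe v, h]
        exact Sym2.eq_swap
      exact neF _ _ (hfF v) (einj h4)
    · have h4 : e (f v) = e v' := by
        rw [← hfe (f v), ← hfe v', h, hvv]
        exact Sym2.eq_swap
      have h5 : f v = v' := einj h4
      rw [hvv] at h5
      exact neF _ _ (hfF v') h5
  have fbij : Function.Bijective f := Finite.injective_iff_bijective.1 finj
  set g : Equiv.Perm V := Equiv.ofBijective f fbij with hg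
  have hgf : ∀ v, g v = f v := fun v => rfl
  have hsymF : ∀ v, g.symm v ∈ F v := by
    intro v
    have h : f (g.symm v) = v := by
      rw [← hgf]
      exact g.apply_symm_apply v
    have h1 := symF _ _ (hfF (g.symm v))
    rwa [h] at h1
  have hd1 : ∀ v, g v ≠ g.symm v := by
    intro v hv
    have h : f (g.symm v) = v := by
      rw [← hgf]
      exact g.apply_symm_apply v
    have h4 : e v = e (g.symm v) := by
      rw [← hfe v, ← hfe (g.symm v), h, ← hgf v, hv]
      exact Sym2.eq_swap
    exact neF _ _ (hsymF v) (einj h4).symm
  refine ⟨g, mt, ⟨hinv, ?_, hd1, ?_, ?_⟩⟩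
  · intro v w
    have hFw : F v = {g v, g.symm v} := by
      symm
      apply Finset.eq_of_subset_of_card_le
      · intro x hx
        rcases Finset.mem_insert.1 hx with h | h
        · rw [h]; exact hfF v
        · rw [Finset.mem_singleton.1 h]; exact hsymF v
      · rw [cardF, Finset.card_pair (hd1 v)]
    have h := hN v
    have h2 : G.Adj v w ↔ w ∈ insert (mt v) (F v : Set V) := by
      rw [← h]
      exact Iff.rfl
    rw [h2, hFw]
    simp only [Finset.coe_insert, Finset.coe_singleton, Set.mem_insert_iff,
      Set.mem_singleton_iff]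
    tauto
  · intro v
    exact ((memF _ _).1 (hfF v)).2
  · intro v
    exact ((memF _ _).1 (hsymF v)).2

end Pool.Agent.H32.Hom
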