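import Mathlib
import Pool.Agent.H32.Hom.Defs

/-!
# Petersen's theorem, from Tutte's theorem
-/

set_option autoImplicit false

namespace Pool.Agent.H32.Hom

variable {V : Type}

/-- the number of ordered adjacent pairs inside a set is even -/
theorem even_pairs [Fintype V] [DecidableEq V] (G : SimpleGraph V) [DecidableRel G.Adj]
    (S : Set V) [DecidablePred (· ∈ S)] :
    Even (Finset.univ.filter (fun p : V × V => p.1 ∈ S ∧ p.2 ∈ S ∧ G.Adj p.1 p.2)).card := by
  rw [← ZMod.natCast_eq_zero_iff_even, ← nsmul_one, ← Finset.sum_const]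
  refine Finset.sum_involution (fun p _ => (p.2, p.1)) ?_ ?_ ?_ ?_
  · intro p _
    have : (1 : ZMod 2) + 1 = 0 := by decide
    exact this
  · intro p hp _ h
    have hp' := (Finset.mem_filter.mp hp).2
    have h1 : p.2 = p.1 := congrArg Prod.fst h
    exact G.ne_of_adj hp'.2.2 h1.symm
  · intro p hp
    have hp' := (Finset.mem_filter.mp hp).2
    exact Finset.mem_filter.mpr ⟨Finset.mem_univ _, hp'.2.1, hp'.1, hp'.2.2.symm⟩
  · intro p _
    rfl

theorem walk_closed {G : SimpleGraph V} {S : Set V} (hS : ∀ x y, x ∈ S → G.Adj x y → y ∈ S)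
    {a b : V} (p : G.Walk a b) : a ∈ S → b ∈ S := by
  induction p with
  | nil => exact id
  | cons h _ ih => exact fun ha => ih (hS _ _ ha h)

theorem exists_perfectMatching [Finite V] (G : SimpleGraph V)
    (h3 : ∀ v, (G.neighborSet v).ncard = 3) (hb : ∀ e ∈ G.edgeSet, ¬ G.IsBridge e) :
    ∃ M : G.Subgraph, M.IsPerfectMatching := by
  classical
  haveI := Fintype.ofFinite V
  rw [SimpleGraph.tutte]
  intro u hu
  unfold SimpleGraph.IsTutteViolator at hu
  set H := ((⊤ : G.Subgraph).deleteVerts u).coe with hH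
  -- the vertex set of a component
  let S : H.ConnectedComponent → Set V := fun C => Subtype.val '' C.supp
  have hSu : ∀ C x, x ∈ S C → x ∉ u := by
    rintro C x ⟨x', -, rfl⟩
    exact x'.2.2
  have hScl : ∀ C x y, x ∈ S C → y ∉ u → G.Adj x y → y ∈ S C := by
    rintro C x y ⟨x', hx, rfl⟩ hy hxy
    have hy' : y ∈ ((⊤ : G.Subgraph).deleteVerts u).verts := ⟨trivial, hy⟩
    refine ⟨⟨y, hy'⟩, ?_, rfl⟩
    refine C.mem_supp_of_adj_mem_supp hx ?_
    rw [hH]
    simp only [SimpleGraph.Subgraph.coe_adj, SimpleGraph.Subgraph.deleteVerts_adj,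
      SimpleGraph.Subgraph.verts_top, Set.mem_univ, SimpleGraph.Subgraph.top_adj, true_and]
    exact ⟨x'.2.2, hy, hxy⟩
  have hSdis : ∀ C C' x, x ∈ S C → x ∈ S C' → C = C' := by
    rintro C C' x ⟨x', hx, rfl⟩ ⟨x'', hx', h⟩
    have : x'' = x' := Subtype.ext h
    subst this
    rw [SimpleGraph.ConnectedComponent.mem_supp_iff] at hx hx'
    exact hx.symm.trans hx'
  have hScard : ∀ C, (S C).ncard = C.supp.ncard := fun C =>
    Set.ncard_image_of_injective _ Subtype.val_injective
  let P : H.ConnectedComponent → Finset (V × V) := fun C =>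
    Finset.univ.filter (fun p => p.1 ∈ S C ∧ p.2 ∈ u ∧ G.Adj p.1 p.2)
  -- degree counts
  have hdeg : ∀ T : Set V,
      (Finset.univ.filter (fun p : V × V => p.1 ∈ T ∧ G.Adj p.1 p.2)).card = 3 * T.ncard := by
    intro T
    have h1 : (Finset.univ.filter (fun p : V × V => p.1 ∈ T ∧ G.Adj p.1 p.2)) =
        T.toFinset.biUnion (fun x => (G.neighborSet x).toFinset.image (fun y => (x, y))) := by
      ext ⟨a, b⟩
      simp
    rw [h1, Finset.card_biUnion]
    · have : ∀ x ∈ T.toFinset, ((G.neighborSet x).toFinset.image (fun y => (x, y))).card = 3 := by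
        intro x _
        rw [Finset.card_image_of_injective _ (fun a b h => (Prod.mk.inj h).2)]
        rw [← h3 x, Set.ncard_eq_toFinset_card']
      rw [Finset.sum_congr rfl this, Finset.sum_const, Set.ncard_eq_toFinset_card', smul_eq_mul,
        mul_comm]
    · intro x _ y _ hxy
      rw [Function.onFun, Finset.disjoint_left]
      rintro ⟨a, b⟩ h h'
      simp only [Finset.mem_image, Prod.mk.injEq] at h h'
      obtain ⟨_, _, h1, _⟩ := h
      obtain ⟨_, _, h2, _⟩ := h'
      exact hxy (h1.trans h2.symm)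
  have hodd : ∀ C, Odd C.supp.ncard → Odd (P C).card := by
    intro C hC
    have hsplit : (Finset.univ.filter (fun p : V × V => p.1 ∈ S C ∧ G.Adj p.1 p.2)) =
        (Finset.univ.filter (fun p : V × V => p.1 ∈ S C ∧ p.2 ∈ S C ∧ G.Adj p.1 p.2)) ∪ P C := by
      ext ⟨a, b⟩
      simp only [P, Finset.mem_filter, Finset.mem_univ, true_and, Finset.mem_union]
      constructor
      · rintro ⟨h1, h2⟩
        by_cases hbu : b ∈ u
        · exact Or.inr ⟨h1, hbu, h2⟩
        · exact Or.inl ⟨h1, hScl C a b h1 hbu h2, h2⟩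
      · rintro (⟨h1, _, h2⟩ | ⟨h1, _, h2⟩) <;> exact ⟨h1, h2⟩
    have hdis : Disjoint
        (Finset.univ.filter (fun p : V × V => p.1 ∈ S C ∧ p.2 ∈ S C ∧ G.Adj p.1 p.2)) (P C) := by
      rw [Finset.disjoint_left]
      rintro ⟨a, b⟩ h h'
      simp only [P, Finset.mem_filter, Finset.mem_univ, true_and] at h h'
      exact hSu C b h.2.1 h'.2.1
    have hcard := hdeg (S C)
    rw [hsplit, Finset.card_union_of_disjoint hdis, hScard] at hcard
    have he := even_pairs G (S C)
    have ho : Odd (3 * C.supp.ncard) := (by decide : Odd 3).mul hC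
    rw [← hcard] at ho
    rcases Nat.even_or_odd (P C).card with h | h
    · exact absurd (he.add h) (Nat.not_even_iff_odd.mpr ho)
    · exact h
  have hne1 : ∀ C, (P C).card ≠ 1 := by
    intro C hC
    obtain ⟨⟨x0, y0⟩, hp⟩ := Finset.card_eq_one.mp hC
    have hmem : (x0, y0) ∈ P C := by rw [hp]; exact Finset.mem_singleton_self _
    simp only [P, Finset.mem_filter, Finset.mem_univ, true_and] at hmem
    obtain ⟨hx0, hy0, hadj⟩ := hmem
    refine hb s(x0, y0) hadj ?_
    rw [SimpleGraph.isBridge_iff]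
    rintro ⟨p⟩
    refine hSu C y0 (walk_closed (S := S C) ?_ p hx0) hy0
    intro x y hx hxy
    rw [SimpleGraph.deleteEdges_adj] at hxy
    by_cases hyu : y ∈ u
    · exfalso
      have : (x, y) ∈ P C := by
        simp only [P, Finset.mem_filter, Finset.mem_univ, true_and]
        exact ⟨hx, hyu, hxy.1⟩
      rw [hp, Finset.mem_singleton, Prod.mk.injEq] at this
      apply hxy.2
      rw [this.1, this.2]
      rfl
    · exact hScl C x y hx hyu hxy.1
  have hge3 : ∀ C, Odd C.supp.ncard → 3 ≤ (P C).card := by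
    intro C hC
    have h1 := hodd C hC
    have h2 := hne1 C
    obtain ⟨k, hk⟩ := h1
    omega
  -- sum over the odd components
  haveI : Fintype H.ConnectedComponent := Fintype.ofFinite _
  have hsum : ∑ C ∈ H.oddComponents.toFinset, (P C).card ≤ 3 * u.ncard := by
    rw [← Finset.card_biUnion]
    · rw [← hdeg u]
      refine Finset.card_le_card_of_injOn (fun p => (p.2, p.1)) ?_ ?_
      · rintro ⟨a, b⟩ h
        simp only [P, Finset.coe_biUnion, Finset.coe_filter, Finset.mem_univ, true_and,
          Set.mem_iUnion, Set.mem_setOf_eq] at h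
        obtain ⟨C, _, _, h1, h2⟩ := h
        simp only [Finset.coe_filter, Finset.mem_univ, true_and, Set.mem_setOf_eq]
        exact ⟨h1, h2.symm⟩
      · rintro ⟨a, b⟩ _ ⟨a', b'⟩ _ h
        simp only [Prod.mk.injEq] at h ⊢
        exact ⟨h.2, h.1⟩
    · intro C _ C' _ hCC'
      rw [Function.onFun, Finset.disjoint_left]
      rintro ⟨a, b⟩ h h'
      simp only [P, Finset.mem_filter, Finset.mem_univ, true_and] at h h'
      exact hCC' (hSdis C C' a h.1 h'.1)
  have hlow : H.oddComponents.toFinset.card * 3 ≤ ∑ C ∈ H.oddComponents.toFinset, (P C).card := by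
    rw [← smul_eq_mul]
    refine Finset.card_nsmul_le_sum _ _ _ ?_
    intro C hC
    exact hge3 C (by simpa using hC)
  rw [Set.ncard_eq_toFinset_card' H.oddComponents] at hu
  omega

end Pool.Agent.H32.Hom
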