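import Mathlib
import Pool.Agent.H16.Cube.Lll
import Pool.Agent.H32.Hom.Facts

/-!
# Homogeneous colourings: choice of the windows, by the local lemma
-/

namespace Pool.Agent.H32.Hom

open Pool.Agent.H16.Cube

variable {V : Type}

/-- The number of functions with prescribed values on the image of a set of positions. -/
theorem card_prescribed [Fintype V] [DecidableEq V] {R : ℕ} (J : Finset ℕ) (b : ℕ → V)
    (hb : Set.InjOn b J) (r : ℕ → ℕ) :
    (Finset.univ.filter (fun p : V → Fin R => ∀ t ∈ J, (p (b t) : ℕ) = r t)).card *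
      R ^ J.card ≤ Fintype.card (V → Fin R) := by
  classical
  let S : V → Finset (Fin R) := fun v =>
    if v ∈ J.image b then Finset.univ.filter (fun x : Fin R => ∀ t ∈ J, b t = v → (x : ℕ) = r t)
    else Finset.univ
  have hsub : (Finset.univ.filter (fun p : V → Fin R => ∀ t ∈ J, (p (b t) : ℕ) = r t)) ⊆
      Fintype.piFinset S := by
    intro p hp
    have hp' := (Finset.mem_filter.mp hp).2
    rw [Fintype.mem_piFinset]
    intro v
    simp only [S]
    split_ifs with hv
    · refine Finset.mem_filter.mpr ⟨Finset.mem_univ _, ?_⟩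
      rintro t ht rfl
      exact hp' t ht
    · exact Finset.mem_univ _
  have hS1 : ∀ v ∈ J.image b, (S v).card ≤ 1 := by
    intro v hv
    simp only [S, if_pos hv]
    obtain ⟨t, ht, rfl⟩ := Finset.mem_image.mp hv
    rw [Finset.card_le_one]
    intro x hx y hy
    have h1 := (Finset.mem_filter.mp hx).2 t ht rfl
    have h2 := (Finset.mem_filter.mp hy).2 t ht rfl
    exact Fin.ext (h1.trans h2.symm)
  have hS2 : ∀ v ∉ J.image b, (S v).card = R := by
    intro v hv
    simp only [S, if_neg hv, Finset.card_univ, Fintype.card_fin]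
  have hcard : (Fintype.piFinset S).card ≤ R ^ (Finset.univ \ J.image b).card := by
    rw [Fintype.card_piFinset, ← Finset.prod_sdiff (Finset.subset_univ (J.image b))]
    have h1 : ∏ v ∈ Finset.univ \ J.image b, (S v).card = R ^ (Finset.univ \ J.image b).card := by
      rw [Finset.prod_congr rfl (fun v hv => hS2 v (Finset.mem_sdiff.mp hv).2),
        Finset.prod_const]
    have h2 : ∏ v ∈ J.image b, (S v).card ≤ 1 := Finset.prod_le_one' hS1
    rw [h1]
    exact (Nat.mul_le_mul_left _ h2).trans (by rw [mul_one])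
  have hJ : (J.image b).card = J.card := Finset.card_image_of_injOn hb
  have hsum : (Finset.univ \ J.image b).card + J.card = Fintype.card V := by
    rw [← hJ, Finset.card_sdiff_add_card_eq_card (Finset.subset_univ _), Finset.card_univ]
  calc _ ≤ (Fintype.piFinset S).card * R ^ J.card :=
        Nat.mul_le_mul_right _ (Finset.card_le_card hsub)
    _ ≤ R ^ (Finset.univ \ J.image b).card * R ^ J.card := Nat.mul_le_mul_right _ hcard
    _ = Fintype.card (V → Fin R) := by
        rw [← pow_add, hsum]; simp

theorem exists_windows [Finite V] (f : Equiv.Perm V) (mt st : V → V) (pos : V → ℕ)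
    (L w R A : ℕ) (hF : Far f mt (60 * L)) (hB : Blocks f L st pos) (hL : w * R < L)
    (hw : 0 < w) (hR : 0 < R) (hnum : 4 * R * w.choose A * (54 * L) ^ 2 ≤ R ^ A) :
    ∃ p : V → ℕ, (∀ s, p s < R) ∧ ∀ s, st s = s → ∀ J : Finset ℕ,
      (∀ t ∈ J, t / w = p s ∧ Win st pos w p (mt ((f ^ t) s))) → J.card < A := by
  classical
  have : Fintype V := Fintype.ofFinite V
  have : Nonempty (Fin R) := ⟨⟨0, hR⟩⟩
  have hinv := hF.invol
  choose T hT hTc using fun x => rel_finset f mt st pos L hB x
  -- the events
  let E : V → Finset (V → Fin R) := fun s =>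
    Finset.univ.filter (fun p => st s = s ∧ ∃ J : Finset ℕ, J.card = A ∧
      ∀ t ∈ J, t / w = (p s : ℕ) ∧ pos (mt ((f ^ t) s)) / w = (p (st (mt ((f ^ t) s))) : ℕ))
  let S : V → Finset V := fun s => Finset.univ.filter (fun b => Rel f mt st s b)
  have hltL : ∀ t r : ℕ, t / w = r → r < R → t < L := by
    intro t r h1 h2
    have h3 : t < w * (r + 1) := by rw [← h1]; exact Nat.lt_mul_div_succ t hw
    have h4 : w * (r + 1) ≤ w * R := Nat.mul_le_mul_left _ h2
    omega
  have hdep : ∀ s, DependsOn (E s) (S s) := by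
    intro s p p' h hp
    simp only [E, Finset.mem_filter, Finset.mem_univ, true_and] at hp ⊢
    obtain ⟨hs, J, hJ, hJt⟩ := hp
    refine ⟨hs, J, hJ, ?_⟩
    intro t ht
    obtain ⟨h1, h2⟩ := hJt t ht
    have htL : t < L := hltL t _ h1 (p s).2
    have hst : In3 f st ((f ^ t) s) s := Or.inl (hB.st_pow hs htL).symm
    have hss : p s = p' s := h s (Finset.mem_filter.mpr ⟨Finset.mem_univ _, _, hst, Or.inl hst⟩)
    have hst' : p (st (mt ((f ^ t) s))) = p' (st (mt ((f ^ t) s))) :=
      h _ (Finset.mem_filter.mpr ⟨Finset.mem_univ _, _, hst, Or.inr (Or.inl rfl)⟩)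
    rw [← hss, ← hst']
    exact ⟨h1, h2⟩
  have hD : ∀ y, (Finset.univ.filter (fun z => z ≠ y ∧ ¬ Disjoint (S y) (S z))).card ≤
      (54 * L) ^ 2 := by
    intro y
    have hsub : (Finset.univ.filter (fun z => z ≠ y ∧ ¬ Disjoint (S y) (S z))) ⊆
        (T y).biUnion T := by
      intro z hz
      obtain ⟨_, hz2⟩ := (Finset.mem_filter.mp hz).2
      obtain ⟨b, hb1, hb2⟩ := Finset.not_disjoint_iff.mp hz2
      exact Finset.mem_biUnion.mpr ⟨b, hT _ _ (Finset.mem_filter.mp hb1).2,
        hT _ _ (rel_symm f mt st hinv (Finset.mem_filter.mp hb2).2)⟩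
    refine (Finset.card_le_card hsub).trans ?_
    refine (Finset.card_biUnion_le_card_mul _ _ (54 * L) (fun x _ => hTc x)).trans ?_
    rw [pow_two]; exact Nat.mul_le_mul_right _ (hTc y)
  have hEn : ∀ s, (E s).card * R ^ A ≤ R * w.choose A * Fintype.card (V → Fin R) := by
    intro s
    by_cases hs : st s = s
    · let P : ℕ → Finset ℕ → Finset (V → Fin R) := fun r J =>
        Finset.univ.filter (fun p : V → Fin R => ∀ t ∈ J,
          (p (st (mt ((f ^ t) s))) : ℕ) = pos (mt ((f ^ t) s)) / w)
      have hsub : E s ⊆ (Finset.range R).biUnion (fun r =>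
          (Finset.powersetCard A (Finset.Ico (w * r) (w * r + w))).biUnion (fun J => P r J)) := by
        intro p hp
        obtain ⟨_, J, hJ, hJt⟩ := (Finset.mem_filter.mp hp).2
        refine Finset.mem_biUnion.mpr ⟨p s, Finset.mem_range.mpr (p s).2, ?_⟩
        refine Finset.mem_biUnion.mpr ⟨J, Finset.mem_powersetCard.mpr ⟨?_, hJ⟩, ?_⟩
        · intro t ht
          have h1 := (hJt t ht).1
          have h2 : t < w * ((p s : ℕ) + 1) := by rw [← h1]; exact Nat.lt_mul_div_succ t hw
          have h3 : w * (p s : ℕ) ≤ t := by rw [← h1]; exact Nat.mul_div_le t w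
          have h4 : w * ((p s : ℕ) + 1) = w * (p s : ℕ) + w := by ring
          exact Finset.mem_Ico.mpr ⟨h3, by omega⟩
        · refine Finset.mem_filter.mpr ⟨Finset.mem_univ _, fun t ht => ?_⟩
          exact ((hJt t ht).2).symm
      have hPc : ∀ r ∈ Finset.range R, ∀ J ∈ Finset.powersetCard A
          (Finset.Ico (w * r) (w * r + w)), (P r J).card * R ^ A ≤
          Fintype.card (V → Fin R) := by
        intro r hr J hJ
        obtain ⟨hJ1, hJ2⟩ := Finset.mem_powersetCard.mp hJ
        have h1 := card_prescribed (R := R) J (fun t => st (mt ((f ^ t) s))) (by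
          intro t ht t' ht' h
          by_contra hne
          have hlt : ∀ t ∈ J, t < L := by
            intro t ht
            have h2 := Finset.mem_Ico.mp (hJ1 ht)
            have h3 : w * (r + 1) ≤ w * R :=
              Nat.mul_le_mul_left _ (Finset.mem_range.mp hr)
            have h4 : w * (r + 1) = w * r + w := by ring
            omega
          exact in3_ne hB hF (hlt t ht) (hlt t' ht') hne (Or.inl rfl) (Or.inl rfl) h)
          (fun t => pos (mt ((f ^ t) s)) / w)
        rwa [hJ2] at h1
      calc (E s).card * R ^ A ≤ ((Finset.range R).biUnion (fun r =>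
            (Finset.powersetCard A (Finset.Ico (w * r) (w * r + w))).biUnion
              (fun J => P r J))).card * R ^ A :=
            Nat.mul_le_mul_right _ (Finset.card_le_card hsub)
        _ ≤ (∑ r ∈ Finset.range R, ∑ J ∈ Finset.powersetCard A
              (Finset.Ico (w * r) (w * r + w)), (P r J).card) * R ^ A := by
            refine Nat.mul_le_mul_right _ (Finset.card_biUnion_le.trans ?_)
            exact Finset.sum_le_sum (fun r _ => Finset.card_biUnion_le)
        _ = ∑ r ∈ Finset.range R, ∑ J ∈ Finset.powersetCard A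
              (Finset.Ico (w * r) (w * r + w)), (P r J).card * R ^ A := by
            rw [Finset.sum_mul]
            exact Finset.sum_congr rfl (fun r _ => by rw [Finset.sum_mul])
        _ ≤ ∑ r ∈ Finset.range R, ∑ _J ∈ Finset.powersetCard A
              (Finset.Ico (w * r) (w * r + w)), Fintype.card (V → Fin R) :=
            Finset.sum_le_sum (fun r hr => Finset.sum_le_sum (fun J hJ => hPc r hr J hJ))
        _ = R * w.choose A * Fintype.card (V → Fin R) := by
            simp only [Finset.sum_const, Finset.card_powersetCard, Nat.card_Ico,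
              Finset.card_range, smul_eq_mul, Nat.add_sub_cancel_left]
            ring
    · have : E s = ∅ := by
        apply Finset.filter_eq_empty_iff.mpr
        intro p _ h
        exact hs h.1
      rw [this]; simp
  -- the bound as a real number
  have hRA : (0 : ℝ) < (R : ℝ) ^ A := by positivity
  have hEc : ∀ y, ((E y).card : ℝ) ≤ (R * w.choose A / (R : ℝ) ^ A) *
      Fintype.card (V → Fin R) := by
    intro y
    have h1 : ((E y).card : ℝ) * (R : ℝ) ^ A ≤ R * w.choose A * Fintype.card (V → Fin R) := by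
      exact_mod_cast hEn y
    rw [div_mul_eq_mul_div, le_div_iff₀ hRA]
    exact h1
  have hq0 : (0 : ℝ) ≤ R * w.choose A / (R : ℝ) ^ A := by positivity
  have h4 : 4 * ((R * w.choose A / (R : ℝ) ^ A)) * ((54 * L) ^ 2 : ℕ) ≤ 1 := by
    have h1 : (4 : ℝ) * R * w.choose A * (54 * L) ^ 2 ≤ (R : ℝ) ^ A := by exact_mod_cast hnum
    push_cast
    rw [mul_div_assoc', div_mul_eq_mul_div, div_le_one hRA]
    linarith
  have hL1 : (1 : ℝ) ≤ ((54 * L) ^ 2 : ℕ) := by
    have : 1 ≤ (54 * L) ^ 2 := Nat.one_le_pow _ _ (by omega)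
    exact_mod_cast this
  have hq1 : 4 * (R * w.choose A / (R : ℝ) ^ A) ≤ 1 := by nlinarith
  have hlll := lll hdep hq0 hEc hD h4 (by linarith)
  have hpos : (0 : ℝ) < (1 - 2 * (R * w.choose A / (R : ℝ) ^ A)) ^ Fintype.card V *
      Fintype.card (V → Fin R) := by
    have h1 : (0 : ℝ) < 1 - 2 * (R * w.choose A / (R : ℝ) ^ A) := by linarith
    have h2 : (0 : ℝ) < Fintype.card (V → Fin R) := by exact_mod_cast Fintype.card_pos
    positivity
  have hne : 0 < (avoid E Finset.univ).card := by exact_mod_cast lt_of_lt_of_le hpos hlll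
  obtain ⟨p, hp⟩ := Finset.card_pos.mp hne
  refine ⟨fun v => p v, fun s => (p s).2, ?_⟩
  intro s hs J hJ
  by_contra hcon
  push Not at hcon
  obtain ⟨J', hJ'1, hJ'2⟩ := Finset.exists_subset_card_eq hcon
  have h5 := (Finset.mem_filter.mp hp).2 s (Finset.mem_univ s)
  exact h5 (Finset.mem_filter.mpr ⟨Finset.mem_univ _, hs, J', hJ'2,
    fun t ht => hJ t (hJ'1 ht)⟩)

end Pool.Agent.H32.Hom
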