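import Mathlib
import Pool.Agent.H32.Hom.Defs

/-!
# Reduced words in a cubic graph of large girth

A reduced walk shorter than the girth is a path, so short reduced words in `f` and `mt` have no
fixed points.
-/

namespace Pool.Agent.H32.Hom

variable {V : Type}

/-- The three moves: along `f`, against `f`, to the mate. -/
inductive Mv : Type
  | F : Mv
  | B : Mv
  | M : Mv

namespace Mv

/-- The inverse move. -/
def inv : Mv → Mv
  | F => B
  | B => F
  | M => M

end Mv

/-- The action of a move. -/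
def act (f : Equiv.Perm V) (mt : V → V) : Mv → V → V
  | Mv.F, v => f v
  | Mv.B, v => f.symm v
  | Mv.M, v => mt v

/-- `Rd f mt e v w n`: there is a reduced walk from `v` to `w` of length `n`, first move `e`. -/
inductive Rd (f : Equiv.Perm V) (mt : V → V) : Mv → V → V → ℕ → Prop
  | base (e : Mv) (v : V) : Rd f mt e v (act f mt e v) 1
  | step (e e' : Mv) (u w : V) (n : ℕ) (h : Rd f mt e (act f mt e' u) w n) (hne : e ≠ e'.inv) :
      Rd f mt e' u w (n + 1)

section

variable {G : SimpleGraph V} {f : Equiv.Perm V} {mt : V → V}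

theorem act_adj (hd : Desc G f mt) (e : Mv) (v : V) : G.Adj v (act f mt e v) := by
  rw [hd.nbr]
  cases e
  · exact Or.inl rfl
  · exact Or.inr (Or.inl rfl)
  · exact Or.inr (Or.inr rfl)

theorem act_inv (hd : Desc G f mt) (e : Mv) (v : V) : act f mt e.inv (act f mt e v) = v := by
  cases e
  · simp [act, Mv.inv]
  · simp [act, Mv.inv]
  · simpa [act, Mv.inv] using hd.invol v

theorem act_inj (hd : Desc G f mt) (e e' : Mv) (v : V) (h : act f mt e v = act f mt e' v) :
    e = e' := by
  have h1 := hd.d1 v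
  have h2 := hd.d2 v
  have h3 := hd.d3 v
  cases e <;> cases e' <;> simp only [act] at h
  · rfl
  · exact absurd h h1
  · exact absurd h h2
  · exact absurd h.symm h1
  · rfl
  · exact absurd h h3
  · exact absurd h.symm h2
  · exact absurd h.symm h3
  · rfl

theorem path_of_rd (hd : Desc G f mt) {g : ℕ} (hg : (g : ℕ∞) ≤ G.egirth) {e : Mv} {v w : V}
    {n : ℕ} (h : Rd f mt e v w n) (hn : n < g) :
    ∃ q : G.Walk (act f mt e v) w, (SimpleGraph.Walk.cons (act_adj hd e v) q).IsPath ∧
      q.length + 1 = n := by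
  classical
  induction h with
  | base e v =>
    refine ⟨SimpleGraph.Walk.nil, ?_, rfl⟩
    rw [SimpleGraph.Walk.cons_isPath_iff]
    refine ⟨SimpleGraph.Walk.IsPath.nil, ?_⟩
    rw [SimpleGraph.Walk.support_nil, List.mem_singleton]
    exact (act_adj hd e v).ne
  | step e e' u w n h hne ih =>
    obtain ⟨q, hq, hql⟩ := ih (by omega)
    have hq' := (SimpleGraph.Walk.cons_isPath_iff _ _).1 hq
    refine ⟨SimpleGraph.Walk.cons (act_adj hd e (act f mt e' u)) q, ?_, by
      rw [SimpleGraph.Walk.length_cons]; omega⟩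
    rw [SimpleGraph.Walk.cons_isPath_iff]
    refine ⟨hq, ?_⟩
    intro hu
    have hub : u ≠ act f mt e' u := (act_adj hd e' u).ne
    have hb1 : act f mt e (act f mt e' u) ≠ u := by
      intro h'
      apply hne
      apply act_inj hd e e'.inv (act f mt e' u)
      rw [h', act_inv hd]
    have huq : u ∈ q.support := by
      rw [SimpleGraph.Walk.support_cons, List.mem_cons] at hu
      rcases hu with hu | hu
      · exact absurd hu hub
      · exact hu
    obtain ⟨r, hr⟩ : ∃ r, r = q.takeUntil u huq := ⟨_, rfl⟩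
    have hcyc : (SimpleGraph.Walk.cons (act_adj hd e' u)
        (SimpleGraph.Walk.cons (act_adj hd e (act f mt e' u)) r)).IsCycle := by
      rw [SimpleGraph.Walk.cons_isCycle_iff]
      refine ⟨?_, ?_⟩
      · rw [SimpleGraph.Walk.cons_isPath_iff, hr]
        refine ⟨hq'.1.takeUntil huq, ?_⟩
        intro hbr
        exact hq'.2 (q.support_takeUntil_subset_support huq hbr)
      · rw [SimpleGraph.Walk.edges_cons, List.mem_cons]
        rintro (h1 | h1)
        · rw [Sym2.eq_iff] at h1
          rcases h1 with h1 | h1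
          · exact hub h1.1
          · exact hb1 h1.1.symm
        · have := r.snd_mem_support_of_mem_edges h1
          rw [hr] at this
          exact hq'.2 (q.support_takeUntil_subset_support huq this)
    have h1 : G.egirth ≤ ((SimpleGraph.Walk.cons (act_adj hd e' u)
        (SimpleGraph.Walk.cons (act_adj hd e (act f mt e' u)) r)).length : ℕ∞) :=
      SimpleGraph.le_egirth.1 le_rfl u _ hcyc
    have h2 := hg.trans h1
    rw [Nat.cast_le, SimpleGraph.Walk.length_cons, SimpleGraph.Walk.length_cons] at h2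
    have h3 : r.length ≤ q.length := by
      rw [hr]; exact q.length_takeUntil_le_length huq
    omega

theorem ne_of_rd (hd : Desc G f mt) {g : ℕ} (hg : (g : ℕ∞) ≤ G.egirth) {e : Mv} {v w : V}
    {n : ℕ} (h : Rd f mt e v w n) (hn : n < g) : w ≠ v := by
  obtain ⟨q, hq, -⟩ := path_of_rd hd hg h hn
  rw [SimpleGraph.Walk.cons_isPath_iff] at hq
  intro hwv
  subst hwv
  exact hq.2 q.end_mem_support

theorem rd_pow_step (e : Mv) (he : e ≠ Mv.M) (k : ℕ) :
    ∀ (u w : V) (n : ℕ), Rd f mt Mv.M ((act f mt e)^[k + 1] u) w n → Rd f mt e u w (n + (k + 1)) := by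
  have hei : e ≠ e.inv := by cases e <;> simp_all [Mv.inv]
  have hMi : Mv.M ≠ e.inv := by cases e <;> simp_all [Mv.inv]
  induction k with
  | zero =>
    intro u w n h
    exact Rd.step Mv.M e u w n (by simpa using h) hMi
  | succ k ih =>
    intro u w n h
    rw [Function.iterate_succ_apply] at h
    exact Rd.step e e u w (n + (k + 1)) (ih _ _ _ h) hei

theorem rd_pow_base (e : Mv) (he : e ≠ Mv.M) (k : ℕ) :
    ∀ u : V, Rd f mt e u ((act f mt e)^[k + 1] u) (k + 1) := by
  have hei : e ≠ e.inv := by cases e <;> simp_all [Mv.inv]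
  induction k with
  | zero =>
    intro u
    exact Rd.base e u
  | succ k ih =>
    intro u
    rw [Function.iterate_succ_apply]
    exact Rd.step e e u _ (k + 1) (ih _) hei

theorem zpow_eq_iterate (a : ℤ) (ha : a ≠ 0) : ∃ (e : Mv) (k : ℕ), e ≠ Mv.M ∧
    k + 1 = a.natAbs ∧ ∀ u : V, (f ^ a) u = (act f mt e)^[k + 1] u := by
  rcases lt_or_gt_of_ne ha with h | h
  · refine ⟨Mv.B, a.natAbs - 1, by simp, by omega, ?_⟩
    intro u
    have h1 : a.natAbs - 1 + 1 = a.natAbs := by omega
    rw [h1]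
    have h2 : a = -(a.natAbs : ℤ) := by omega
    have h3 : act f mt Mv.B = ⇑(f⁻¹ : Equiv.Perm V) := rfl
    conv_lhs => rw [h2, zpow_neg, ← inv_zpow, zpow_natCast]
    rw [h3, ← Equiv.Perm.iterate_eq_pow]
  · refine ⟨Mv.F, a.natAbs - 1, by simp, by omega, ?_⟩
    intro u
    have h1 : a.natAbs - 1 + 1 = a.natAbs := by omega
    rw [h1]
    have h2 : a = (a.natAbs : ℤ) := by omega
    have h3 : act f mt Mv.F = ⇑f := rfl
    conv_lhs => rw [h2, zpow_natCast]
    rw [h3, ← Equiv.Perm.iterate_eq_pow]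

/-- The last part of a word: mate, then a power of `f`. -/
theorem rd_last (x : V) (b : ℤ) :
    ∃ m : ℕ, m ≤ b.natAbs + 1 ∧ Rd f mt Mv.M x ((f ^ b) (mt x)) m := by
  by_cases hb : b = 0
  · subst hb
    refine ⟨1, by omega, ?_⟩
    exact Rd.base (f := f) (mt := mt) Mv.M x
  · obtain ⟨e, k, he, hk, hu⟩ := zpow_eq_iterate (f := f) (mt := mt) b hb
    refine ⟨k + 1 + 1, by omega, ?_⟩
    rw [hu]
    exact Rd.step e Mv.M x _ (k + 1) (rd_pow_base e he k (mt x)) he

/-- Another part of a word in front of it. -/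
theorem rd_front (v w : V) (a : ℤ) (ha : a ≠ 0) (m : ℕ)
    (h : Rd f mt Mv.M ((f ^ a) (mt v)) w m) : Rd f mt Mv.M v w (m + a.natAbs + 1) := by
  obtain ⟨e, k, he, hk, hu⟩ := zpow_eq_iterate (f := f) (mt := mt) a ha
  rw [hu] at h
  have h1 := rd_pow_step e he k (mt v) w m h
  rw [hk] at h1
  exact Rd.step e Mv.M v w _ h1 he

end

/-- Large girth excludes short closed reduced words. -/
theorem far_of_girth (G : SimpleGraph V) (f : Equiv.Perm V) (mt : V → V) (hd : Desc G f mt)
    (n : ℕ) (hg : ((3 * n + 4 : ℕ) : ℕ∞) ≤ G.egirth) : Far f mt n := by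
  refine ⟨hd.invol, ?_, ?_, ?_, ?_⟩
  · intro v a ha han
    rw [Int.abs_eq_natAbs] at han
    obtain ⟨e, k, he, hk, hu⟩ := zpow_eq_iterate (f := f) (mt := mt) a ha
    rw [hu]
    exact ne_of_rd hd hg (rd_pow_base e he k v) (by omega)
  · intro v a han
    rw [Int.abs_eq_natAbs] at han
    obtain ⟨m, hm, h⟩ := rd_last (f := f) (mt := mt) v a
    exact ne_of_rd hd hg h (by omega)
  · intro v a b ha han hbn
    rw [Int.abs_eq_natAbs] at han hbn
    obtain ⟨m, hm, h⟩ := rd_last (f := f) (mt := mt) ((f ^ a) (mt v)) b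
    exact ne_of_rd hd hg (rd_front v _ a ha m h) (by omega)
  · intro v a b c ha hb han hbn hcn
    rw [Int.abs_eq_natAbs] at han hbn hcn
    obtain ⟨m, hm, h⟩ := rd_last (f := f) (mt := mt) ((f ^ b) (mt ((f ^ a) (mt v)))) c
    have h1 := rd_front ((f ^ a) (mt v)) _ b hb m h
    exact ne_of_rd hd hg (rd_front v _ a ha _ h1) (by omega)

end Pool.Agent.H32.Hom
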