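import Mathlib
import Pool.Agent.H16.Cube.Lll
import Pool.Agent.H32.Hom.Facts
import Pool.Agent.H32.Hom.Inter
import Pool.Agent.H32.Hom.Count

/-!
# Homogeneous colourings: block colours with coincidences, by the local lemma
-/

namespace Pool.Agent.H32.Hom

open Pool.Agent.H16.Cube

variable {V : Type}

/-- The blocks whose colours matter for position `t` of the block of `s`. -/
def Dep (f : Equiv.Perm V) (mt st : V → V) (pos : V → ℕ) (w : ℕ) (p : V → ℕ) (s : V) (t : ℕ)
    (b : V) : Prop :=
  In3 f st (mt ((f ^ t) s)) b ∨ Rel f mt st (src f mt st pos w p s t) b ∨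
    ∃ y, st y = st (mt ((f ^ t) s)) ∧ b = sg f st pos w p (mt y)

theorem in3_src (f : Equiv.Perm V) (mt st : V → V) (pos : V → ℕ) (w : ℕ) (p : V → ℕ) (s : V)
    (t : ℕ) : In3 f st (mt ((f ^ t) s)) (src f mt st pos w p s t) := sg_in3 f st pos w p _

theorem goodPair_congr {q : ℕ} {f : Equiv.Perm V} {mt st : V → V} {pos : V → ℕ} {w : ℕ}
    {p : V → ℕ} {ξ ξ' : V → Fin q} {s : V} {i j : ℕ} (hg : GoodPair f mt st pos w p ξ s i j)
    (h : ∀ t, i ≤ t → t ≤ j → ∀ b, Dep f mt st pos w p s t b → ξ' b = ξ b) :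
    GoodPair f mt st pos w p ξ' s i j := by
  have hij := hg.lt
  have hi : ξ' (src f mt st pos w p s i) = ξ (src f mt st pos w p s i) :=
    h i le_rfl hij.le _ (Or.inl (in3_src f mt st pos w p s i))
  have hj : ξ' (src f mt st pos w p s j) = ξ (src f mt st pos w p s j) :=
    h j hij.le le_rfl _ (Or.inl (in3_src f mt st pos w p s j))
  refine ⟨hg.oi, hg.oj, hg.lt, hg.wi, hg.wj, hg.ni, hg.nj, ?_, ?_, ?_, ?_, ?_⟩
  · rw [hi, hj]; exact hg.eq
  · intro b hb hr
    rw [hi, h i le_rfl hij.le b (Or.inr (Or.inl hr))]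
    exact hg.ri b hb hr
  · intro b hb hr
    rw [hi, h j hij.le le_rfl b (Or.inr (Or.inl hr))]
    exact hg.rj b hb hr
  · intro t ht ht' b hb
    rw [hi, h t ht.le ht'.le b (Or.inl hb)]
    exact hg.mid t ht ht' b hb
  · intro t ht ht' hW y hy hWy hWm
    rw [hi, h t ht.le ht'.le _ (Or.inr (Or.inr ⟨y, hy, rfl⟩))]
    exact hg.win t ht ht' hW y hy hWy hWm

section

variable {f : Equiv.Perm V} {mt st : V → V} {pos : V → ℕ} {L w R A m G : ℕ} {p : V → ℕ}

theorem dep_ne (hF : Far f mt (60 * L)) (hB : Blocks f L st pos) {s : V} {t t' : ℕ}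
    (ht : t < L) (ht' : t' < L) (hne : t ≠ t') {b : V} (h : Dep f mt st pos w p s t b) :
    b ≠ src f mt st pos w p s t' := by
  rintro rfl
  rcases h with h | h | ⟨y, hy, h⟩
  · exact in3_ne hB hF ht ht' hne h (in3_src f mt st pos w p s t') rfl
  · exact not_rel hB hF ht ht' hne (in3_src f mt st pos w p s t) (in3_src f mt st pos w p s t') h
  · refine not_in3_mt hB hF ht ht' hy (in3_src f mt st pos w p s t') ?_
    rw [h]; exact sg_in3 f st pos w p _

theorem src_inj (hF : Far f mt (60 * L)) (hB : Blocks f L st pos) {s : V} {t t' : ℕ}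
    (ht : t < L) (ht' : t' < L)
    (h : src f mt st pos w p s t = src f mt st pos w p s t') : t = t' := by
  by_contra hne
  exact dep_ne (w := w) (p := p) hF hB ht ht' hne
    (Or.inl (in3_src f mt st pos w p s t)) h

/-- Choose `m` sources in the sub-window `g`. -/
theorem exists_sources (hw : w = 4 * m * G) (hA : A ≤ m) (s : V)
    (hwin : ∀ J : Finset ℕ,
      (∀ t ∈ J, t / w = p s ∧ Win st pos w p (mt ((f ^ t) s))) → J.card < A)
    (g : ℕ) (hg : g < G) (hm : 0 < m) :
    ∃ e : Fin m → ℕ, Function.Injective e ∧ ∀ k, Odd (e k) ∧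
      w * p s + 4 * m * g ≤ e k ∧ e k < w * p s + 4 * m * (g + 1) ∧
      ¬ Win st pos w p (mt ((f ^ (e k)) s)) := by
  classical
  have hw0 : 0 < w := by rw [hw]; have : 0 < G := by omega
                         positivity
  set a := w * p s + 4 * m * g with ha
  have hGg : 4 * m * (g + 1) ≤ w := by
    rw [hw]; exact Nat.mul_le_mul_left _ hg
  have hae : Even a := by
    rw [ha, hw]
    refine ⟨2 * m * G * p s + 2 * m * g, by ring⟩
  let I : Finset ℕ := (Finset.range (2 * m)).image (fun r => a + 2 * r + 1)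
  have hI : I.card = 2 * m := by
    rw [Finset.card_image_of_injective, Finset.card_range]
    intro x y h
    simp only at h
    omega
  have hmem : ∀ t ∈ I, Odd t ∧ a ≤ t ∧ t < a + 4 * m := by
    intro t ht
    obtain ⟨r, hr, rfl⟩ := Finset.mem_image.mp ht
    have := Finset.mem_range.mp hr
    refine ⟨?_, by omega, by omega⟩
    obtain ⟨c, hc⟩ := hae
    exact ⟨c + r, by omega⟩
  have hdiv : ∀ t, a ≤ t → t < a + 4 * m → t / w = p s := by
    intro t h1 h2
    have h3 : 4 * m * (g + 1) = 4 * m * g + 4 * m := by ring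
    apply Nat.div_eq_of_lt_le
    · rw [mul_comm]; omega
    · have : (p s + 1) * w = w * p s + w := by ring
      rw [this]; omega
  have hWc : (I.filter (fun t => Win st pos w p (mt ((f ^ t) s)))).card < A := by
    apply hwin
    intro t ht
    obtain ⟨h1, h2⟩ := Finset.mem_filter.mp ht
    exact ⟨hdiv t (hmem t h1).2.1 (hmem t h1).2.2, h2⟩
  have hO : m ≤ (I.filter (fun t => ¬ Win st pos w p (mt ((f ^ t) s)))).card := by
    have := Finset.card_filter_add_card_filter_not (s := I)
      (fun t => Win st pos w p (mt ((f ^ t) s)))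
    omega
  obtain ⟨O, hO1, hO2⟩ := Finset.exists_subset_card_eq hO
  refine ⟨O.orderEmbOfFin hO2, (O.orderEmbOfFin hO2).injective, ?_⟩
  intro k
  have hk := hO1 (Finset.orderEmbOfFin_mem O hO2 k)
  obtain ⟨h1, h2⟩ := Finset.mem_filter.mp hk
  obtain ⟨h3, h4, h5⟩ := hmem _ h1
  refine ⟨h3, h4, ?_, h2⟩
  have h6 : 4 * m * (g + 1) = 4 * m * g + 4 * m := by ring
  omega

/-- The good event of the sub-window `g`. -/
def GoodAt {q : ℕ} (f : Equiv.Perm V) (mt st : V → V) (pos : V → ℕ) (w m : ℕ) (p : V → ℕ)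
    (s : V) (g : ℕ) (ξ : V → Fin q) : Prop :=
  ∃ i j, GoodPair f mt st pos w p ξ s i j ∧ w * p s + 4 * m * g ≤ i ∧
    j < w * p s + 4 * m * (g + 1)

/-- The fibre bound: with everything outside the sources fixed, the sub-window fails with
probability at most `3 / 4`. -/
theorem fibre [Fintype V] [DecidableEq V] (hF : Far f mt (60 * L)) (hB : Blocks f L st pos) (hL : w * R < L)
    (hw : w = 4 * m * G) (hm : 16 ≤ m)
    (hq : 16 * (54 * L + 12 * m + A * w) ≤ m ^ 2) (hp : ∀ s, p s < R) {s : V}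
    (hwin : ∀ J : Finset ℕ,
      (∀ t ∈ J, t / w = p s ∧ Win st pos w p (mt ((f ^ t) s))) → J.card < A)
    {g : ℕ} (hg : g < G) {e : Fin m → ℕ} (he : Function.Injective e)
    (hodd : ∀ k, Odd (e k)) (hlo : ∀ k, w * p s + 4 * m * g ≤ e k)
    (hhi : ∀ k, e k < w * p s + 4 * m * (g + 1))
    (hnW : ∀ k, ¬ Win st pos w p (mt ((f ^ (e k)) s)))
    (F : Finset (V → Fin (m ^ 2)))
    (hFF : ∀ ξ ∈ F, ¬ GoodAt f mt st pos w m p s g ξ) (ω : V → Fin (m ^ 2)) :
    4 * (Finset.univ.filter (fun x : Fin m → Fin (m ^ 2) =>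
      Function.extend (fun k => src f mt st pos w p s (e k)) x ω ∈ F)).card ≤
      3 * Fintype.card (Fin (m ^ 2)) ^ m := by
  classical
  have hG0 : 0 < G := by omega
  have hw0 : 0 < w := by rw [hw]; positivity
  have hGg : 4 * m * (g + 1) ≤ w := by
    rw [hw]; exact Nat.mul_le_mul_left _ hg
  have hexp : 4 * m * (g + 1) = 4 * m * g + 4 * m := by ring
  -- positions of the sub-window
  set a := w * p s + 4 * m * g with ha
  have hdiv : ∀ t, a ≤ t → t < a + 4 * m → t / w = p s := by
    intro t h1 h2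
    apply Nat.div_eq_of_lt_le
    · rw [mul_comm]; omega
    · have : (p s + 1) * w = w * p s + w := by ring
      rw [this]; omega
  have hltL : ∀ t, t < a + 4 * m → t < L := by
    intro t h
    have h1 : w * (p s + 1) ≤ w * R := Nat.mul_le_mul_left _ (hp s)
    have h2 : w * (p s + 1) = w * p s + w := by ring
    omega
  have hhi' : ∀ k, e k < a + 4 * m := by
    intro k; have := hhi k; omega
  set S : Fin m → V := fun k => src f mt st pos w p s (e k) with hS
  have hSinj : Function.Injective S := by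
    intro k l h
    exact he (src_inj hF hB (hltL _ (hhi' k)) (hltL _ (hhi' l)) h)
  -- the sets of forbidden colours
  choose T hT hTc using fun x => rel_finset f mt st pos L hB x
  let c3 : V → Finset V := fun x => {st x, bk f st x, bk f st (bk f st x)}
  have hc3 : ∀ x b, In3 f st x b → b ∈ c3 x := by
    intro x b h
    simp only [c3, Finset.mem_insert, Finset.mem_singleton]
    exact h
  have hc3c : ∀ x, (c3 x).card ≤ 3 := fun x => Finset.card_le_three
  let I : Finset ℕ := Finset.Ico a (a + 4 * m)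
  let IW : Finset ℕ := I.filter (fun t => Win st pos w p (mt ((f ^ t) s)))
  have hIW : IW.card ≤ A := by
    refine (hwin IW ?_).le
    intro t ht
    obtain ⟨h1, h2⟩ := Finset.mem_filter.mp ht
    obtain ⟨h3, h4⟩ := Finset.mem_Ico.mp h1
    exact ⟨hdiv t h3 h4, h2⟩
  let T2 : Finset V := I.biUnion (fun t => c3 (mt ((f ^ t) s)))
  let T3 : Finset V := IW.biUnion (fun t => (Finset.range w).image (fun r =>
    sg f st pos w p (mt ((f ^ (w * p (st (mt ((f ^ t) s))) + r)) (st (mt ((f ^ t) s)))))))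
  have hT2 : T2.card ≤ 12 * m := by
    refine Finset.card_biUnion_le.trans ?_
    calc ∑ t ∈ I, (c3 (mt ((f ^ t) s))).card ≤ ∑ _t ∈ I, 3 :=
          Finset.sum_le_sum (fun t _ => hc3c _)
      _ = 12 * m := by
          rw [Finset.sum_const, smul_eq_mul, Nat.card_Ico]
          have : a + 4 * m - a = 4 * m := by omega
          rw [this]; ring
  have hT3 : T3.card ≤ A * w := by
    refine Finset.card_biUnion_le.trans ?_
    calc ∑ t ∈ IW, ((Finset.range w).image (fun r =>
            sg f st pos w p (mt ((f ^ (w * p (st (mt ((f ^ t) s))) + r))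
              (st (mt ((f ^ t) s))))))).card ≤ ∑ _t ∈ IW, w :=
          Finset.sum_le_sum (fun t _ => Finset.card_image_le.trans (by rw [Finset.card_range]))
      _ = IW.card * w := by rw [Finset.sum_const, smul_eq_mul]
      _ ≤ A * w := Nat.mul_le_mul_right _ hIW
  let B : Fin m → Finset (Fin (m ^ 2)) := fun k => ((T (S k) ∪ T2) ∪ T3).image ω
  have hBc : ∀ k, 16 * (B k).card ≤ m ^ 2 := by
    intro k
    have h1 : (B k).card ≤ 54 * L + 12 * m + A * w := by
      refine Finset.card_image_le.trans ?_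
      refine (Finset.card_union_le _ _).trans ?_
      refine Nat.add_le_add ?_ hT3
      refine (Finset.card_union_le _ _).trans ?_
      exact Nat.add_le_add (hTc _) hT2
    calc 16 * (B k).card ≤ 16 * (54 * L + 12 * m + A * w) := Nat.mul_le_mul_left _ h1
      _ ≤ m ^ 2 := hq
  have hcount := good_count m hm B hBc
  -- a good `X` makes the sub-window good
  have hkey : ∀ X : Fin m → Fin (m ^ 2), ∀ k l : Fin m, e k < e l → X l = X k → X k ∉ B k →
      X k ∉ B l → (∀ r, r ≠ k → r ≠ l → X r ≠ X k) →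
      GoodAt f mt st pos w m p s g (Function.extend S X ω) := by
    intro X k l hkl hX hk hl hr
    have hex : ∀ r, Function.extend S X ω (S r) = X r := fun r => hSinj.extend_apply X ω r
    have hex' : ∀ b, (¬ ∃ r, S r = b) → Function.extend S X ω b = ω b :=
      fun b hb => Function.extend_apply' X ω b hb
    have hsk : Function.extend S X ω (src f mt st pos w p s (e k)) = X k := hex k
    have hsl : Function.extend S X ω (src f mt st pos w p s (e l)) = X l := hex l
    refine ⟨e k, e l, ?_, hlo k, hhi l⟩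
    refine ⟨hodd k, hodd l, hkl, hdiv _ (hlo k) (hhi' k), hdiv _ (hlo l) (hhi' l), hnW k, hnW l,
      ?_, ?_, ?_, ?_, ?_⟩
    · rw [hsk, hsl, hX]
    · intro b hb hrel
      rw [hsk]
      by_cases hbr : ∃ r, S r = b
      · obtain ⟨r, rfl⟩ := hbr
        have hrk : r ≠ k := by rintro rfl; exact hb rfl
        exfalso
        exact not_rel hB hF (hltL _ (hhi' k)) (hltL _ (hhi' r))
          (fun h => hrk (he h.symm)) (in3_src f mt st pos w p s (e k))
          (in3_src f mt st pos w p s (e r)) hrel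
      · rw [hex' b hbr]
        intro h
        apply hk
        rw [← h]
        exact Finset.mem_image_of_mem ω
          (Finset.mem_union_left _ (Finset.mem_union_left _ (hT _ _ hrel)))
    · intro b hb hrel
      rw [hsk]
      by_cases hbr : ∃ r, S r = b
      · obtain ⟨r, rfl⟩ := hbr
        have hrl : r ≠ l := by rintro rfl; exact hb rfl
        exfalso
        exact not_rel hB hF (hltL _ (hhi' l)) (hltL _ (hhi' r))
          (fun h => hrl (he h.symm)) (in3_src f mt st pos w p s (e l))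
          (in3_src f mt st pos w p s (e r)) hrel
      · rw [hex' b hbr]
        intro h
        apply hl
        rw [← h]
        exact Finset.mem_image_of_mem ω
          (Finset.mem_union_left _ (Finset.mem_union_left _ (hT _ _ hrel)))
    · intro t ht ht' b hb
      rw [hsk]
      have htI : t ∈ I := Finset.mem_Ico.mpr ⟨(hlo k).trans ht.le, ht'.trans (hhi' l)⟩
      have htL : t < L := hltL _ (ht'.trans (hhi' l))
      by_cases hbr : ∃ r, S r = b
      · obtain ⟨r, rfl⟩ := hbr
        have hrt : t = e r := by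
          by_contra hne
          exact in3_ne hB hF htL (hltL _ (hhi' r)) hne hb (in3_src f mt st pos w p s (e r)) rfl
        rw [hex r]
        refine hr r ?_ ?_
        · rintro rfl; omega
        · rintro rfl; omega
      · rw [hex' b hbr]
        intro h
        apply hk
        rw [← h]
        refine Finset.mem_image_of_mem ω
          (Finset.mem_union_left _ (Finset.mem_union_right _ ?_))
        exact Finset.mem_biUnion.mpr ⟨t, htI, hc3 _ _ hb⟩
    · intro t ht ht' hW y hy hWy _
      rw [hsk]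
      have htI : t ∈ I := Finset.mem_Ico.mpr ⟨(hlo k).trans ht.le, ht'.trans (hhi' l)⟩
      have htL : t < L := hltL _ (ht'.trans (hhi' l))
      by_cases hbr : ∃ r, S r = sg f st pos w p (mt y)
      · obtain ⟨r, hbr⟩ := hbr
        exfalso
        refine not_in3_mt hB hF htL (hltL _ (hhi' r)) hy (in3_src f mt st pos w p s (e r)) ?_
        show In3 f st (mt y) (S r)
        rw [hbr]; exact sg_in3 f st pos w p _
      · rw [hex' _ hbr]
        intro h
        apply hk
        rw [← h]
        refine Finset.mem_image_of_mem ω (Finset.mem_union_right _ ?_)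
        refine Finset.mem_biUnion.mpr ⟨t, Finset.mem_filter.mpr ⟨htI, hW⟩, ?_⟩
        refine Finset.mem_image.mpr ⟨pos y % w, Finset.mem_range.mpr (Nat.mod_lt _ hw0), ?_⟩
        have h1 : w * p (st (mt ((f ^ t) s))) + pos y % w = pos y := by
          rw [← hy, ← hWy]; exact Nat.div_add_mod _ _
        rw [h1, ← hy, hB.eq_pow]
  -- counting
  have hdisj : (Finset.univ.filter (fun x : Fin m → Fin (m ^ 2) => Function.extend S x ω ∈ F)) ⊆
      (Finset.univ.filter (fun X : Fin m → Fin (m ^ 2) =>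
        ∃ k l, k ≠ l ∧ X l = X k ∧ X k ∉ B k ∧ X k ∉ B l ∧
          ∀ r, r ≠ k → r ≠ l → X r ≠ X k))ᶜ := by
    intro X hX
    simp only [Finset.mem_filter, Finset.mem_univ, true_and, Finset.mem_compl] at hX ⊢
    rintro ⟨k, l, hkl, h1, h2, h3, h4⟩
    rcases lt_trichotomy (e k) (e l) with h | h | h
    · exact hFF _ hX (hkey X k l h h1 h2 h3 h4)
    · exact hkl (he h)
    · refine hFF _ hX (hkey X l k h h1.symm (h1 ▸ h3) (h1 ▸ h2) ?_)
      intro r hr1 hr2
      rw [h1]
      exact h4 r hr2 hr1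
  have h5 := Finset.card_le_card hdisj
  rw [Finset.card_compl] at h5
  have h6 : Fintype.card (Fin m → Fin (m ^ 2)) = (m ^ 2) ^ m := by simp
  rw [h6] at h5
  have h7 : Fintype.card (Fin (m ^ 2)) ^ m = (m ^ 2) ^ m := by simp
  rw [h7]
  omega

/-- The probability that the first `n` sub-windows all fail. -/
theorem avoid_card [Fintype V] [DecidableEq V] (hF : Far f mt (60 * L))
    (hB : Blocks f L st pos) (hL : w * R < L)
    (hw : w = 4 * m * G) (hm : 16 ≤ m) (hA : A ≤ m)
    (hq : 16 * (54 * L + 12 * m + A * w) ≤ m ^ 2) (hp : ∀ s, p s < R) {s : V}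
    (hwin : ∀ J : Finset ℕ,
      (∀ t ∈ J, t / w = p s ∧ Win st pos w p (mt ((f ^ t) s))) → J.card < A)
    (n : ℕ) (hn : n ≤ G) (E : Finset (V → Fin (m ^ 2)))
    (hE : ∀ ξ ∈ E, ∀ g < n, ¬ GoodAt f mt st pos w m p s g ξ) :
    4 ^ n * E.card ≤ 3 ^ n * Fintype.card (V → Fin (m ^ 2)) := by
  classical
  induction n generalizing E with
  | zero =>
    simp only [pow_zero, one_mul]
    exact Finset.card_le_univ E
  | succ n ih =>
    have hnG : n < G := by omega
    obtain ⟨e, he, hek⟩ := exists_sources (pos := pos) (f := f) (mt := mt) (st := st) hw hA s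
      hwin n hnG (by omega)
    let A' : Finset (V → Fin (m ^ 2)) :=
      Finset.univ.filter (fun ξ => ∀ g < n, ¬ GoodAt f mt st pos w m p s g ξ)
    let F' : Finset (V → Fin (m ^ 2)) :=
      Finset.univ.filter (fun ξ => ¬ GoodAt f mt st pos w m p s n ξ)
    have hG0 : 0 < G := by omega
    have hGn : 4 * m * (n + 1) ≤ w := by
      rw [hw]; exact Nat.mul_le_mul_left _ hnG
    have hexpn : 4 * m * (n + 1) = 4 * m * n + 4 * m := by ring
    have hltL : ∀ t, t < w * p s + w → t < L := by
      intro t h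
      have h1 : w * (p s + 1) ≤ w * R := Nat.mul_le_mul_left _ (hp s)
      have h2 : w * (p s + 1) = w * p s + w := by ring
      omega
    have hinj : Function.Injective (fun k => src f mt st pos w p s (e k)) := by
      intro k l h
      refine he (src_inj hF hB (hltL _ ?_) (hltL _ ?_) h)
      · have := (hek k).2.2.1; omega
      · have := (hek l).2.2.1; omega
    have h1 : 4 * (A' ∩ F').card ≤ 3 * A'.card := by
      refine card_inter_le _ hinj A' F' ?_ ?_
      · intro ξ hξ x
        simp only [A', Finset.mem_filter, Finset.mem_univ, true_and] at hξ ⊢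
        intro g hg hgood
        refine hξ g hg ?_
        obtain ⟨i, j, hpair, hi, hj⟩ := hgood
        refine ⟨i, j, goodPair_congr hpair ?_, hi, hj⟩
        intro t hit htj b hb
        rw [Function.extend_apply']
        rintro ⟨k, hk⟩
        have hgn : 4 * m * (g + 1) ≤ 4 * m * n := Nat.mul_le_mul_left _ hg
        have h2 := (hek k).2.1
        have h3 := (hek k).2.2.1
        refine dep_ne hF hB (t := t) (t' := e k) (hltL _ (by omega)) (hltL _ (by omega))
          (by omega) hb hk.symm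
      · intro ω
        exact fibre hF hB hL hw hm hq hp hwin hnG he (fun k => (hek k).1)
          (fun k => (hek k).2.1) (fun k => (hek k).2.2.1) (fun k => (hek k).2.2.2) F'
          (fun ξ hξ => by simpa [F'] using hξ) ω
    have h2 : E ⊆ A' ∩ F' := by
      intro ξ hξ
      refine Finset.mem_inter.mpr ⟨?_, ?_⟩
      · simp only [A', Finset.mem_filter, Finset.mem_univ, true_and]
        exact fun g hg => hE ξ hξ g (by omega)
      · simp only [F', Finset.mem_filter, Finset.mem_univ, true_and]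
        exact hE ξ hξ n (by omega)
    have h3 := ih (by omega) A' (by
      intro ξ hξ
      simpa [A'] using hξ)
    have h4 := Finset.card_le_card h2
    calc 4 ^ (n + 1) * E.card ≤ 4 ^ (n + 1) * (A' ∩ F').card := Nat.mul_le_mul_left _ h4
      _ = 4 ^ n * (4 * (A' ∩ F').card) := by ring
      _ ≤ 4 ^ n * (3 * A'.card) := Nat.mul_le_mul_left _ h1
      _ = 3 * (4 ^ n * A'.card) := by ring
      _ ≤ 3 * (3 ^ n * Fintype.card (V → Fin (m ^ 2))) := Nat.mul_le_mul_left _ h3
      _ = 3 ^ (n + 1) * Fintype.card (V → Fin (m ^ 2)) := by ring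

end

theorem exists_xi [Finite V] (f : Equiv.Perm V) (mt st : V → V) (pos : V → ℕ)
    (L w R A m G : ℕ) (hF : Far f mt (60 * L)) (hB : Blocks f L st pos) (hL : w * R < L)
    (hw : w = 4 * m * G) (hm : 16 ≤ m) (hA : A ≤ m)
    (hq : 16 * (54 * L + 12 * m + A * w) ≤ m ^ 2)
    (hG : 4 * 3 ^ G * (54 * L) ^ 4 ≤ 4 ^ G) (p : V → ℕ) (hp : ∀ s, p s < R)
    (hwin : ∀ s, st s = s → ∀ J : Finset ℕ,
      (∀ t ∈ J, t / w = p s ∧ Win st pos w p (mt ((f ^ t) s))) → J.card < A) :
    ∃ ξ : V → Fin (m ^ 2), ∀ s, st s = s → ∃ i j, GoodPair f mt st pos w p ξ s i j := by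
  classical
  have : Fintype V := Fintype.ofFinite V
  have hm2 : 0 < m ^ 2 := by positivity
  have : Nonempty (Fin (m ^ 2)) := ⟨⟨0, hm2⟩⟩
  have hinv := hF.invol
  choose T hT hTc using fun x => rel_finset f mt st pos L hB x
  let E : V → Finset (V → Fin (m ^ 2)) := fun s =>
    Finset.univ.filter (fun ξ => st s = s ∧ ¬ ∃ i j, GoodPair f mt st pos w p ξ s i j)
  let S : V → Finset V := fun s =>
    Finset.univ.filter (fun b => ∃ a, Rel f mt st s a ∧ Rel f mt st a b)
  have hself : ∀ x a, In3 f st x a → Rel f mt st a a := fun x a h => ⟨x, h, Or.inl h⟩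
  have hdep : ∀ s, DependsOn (E s) (S s) := by
    intro s ξ ξ' h hξ
    simp only [E, Finset.mem_filter, Finset.mem_univ, true_and] at hξ ⊢
    obtain ⟨hs, hno⟩ := hξ
    refine ⟨hs, ?_⟩
    rintro ⟨i, j, hg⟩
    refine hno ⟨i, j, goodPair_congr hg ?_⟩
    intro t hit htj b hb
    refine h b ?_
    simp only [S, Finset.mem_filter, Finset.mem_univ, true_and]
    have htL : t < L := by
      have h1 := hg.wj
      have hw0 : 0 < w := by
        rcases Nat.eq_zero_or_pos G with h0 | h0
        · exfalso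
          subst h0
          have : 0 < 54 * L := by omega
          have h3 : 1 ≤ (54 * L) ^ 4 := Nat.one_le_pow _ _ this
          simp only [pow_zero, mul_one] at hG
          omega
        · rw [hw]; positivity
      have h2 : j < w * (p s + 1) := by
        rw [← h1]
        exact Nat.lt_mul_div_succ j hw0
      have h3 : w * (p s + 1) ≤ w * R := Nat.mul_le_mul_left _ (hp s)
      omega
    have hst : In3 f st ((f ^ t) s) s := Or.inl (hB.st_pow hs htL).symm
    rcases hb with hb | hb | ⟨y, hy, hb⟩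
    · exact ⟨b, ⟨_, hst, Or.inr hb⟩, hself _ _ hb⟩
    · exact ⟨_, ⟨_, hst, Or.inr (in3_src f mt st pos w p s t)⟩, hb⟩
    · refine ⟨st (mt ((f ^ t) s)), ⟨_, hst, Or.inr (Or.inl rfl)⟩, ⟨y, Or.inl hy.symm, Or.inr ?_⟩⟩
      rw [hb]; exact sg_in3 f st pos w p _
  have hD : ∀ y, (Finset.univ.filter (fun z => z ≠ y ∧ ¬ Disjoint (S y) (S z))).card ≤
      (54 * L) ^ 4 := by
    intro y
    have hsub : (Finset.univ.filter (fun z => z ≠ y ∧ ¬ Disjoint (S y) (S z))) ⊆
        (((T y).biUnion T).biUnion T).biUnion T := by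
      intro z hz
      obtain ⟨_, hz2⟩ := (Finset.mem_filter.mp hz).2
      obtain ⟨b, hb1, hb2⟩ := Finset.not_disjoint_iff.mp hz2
      obtain ⟨a, ha1, ha2⟩ := (Finset.mem_filter.mp hb1).2
      obtain ⟨a', ha1', ha2'⟩ := (Finset.mem_filter.mp hb2).2
      refine Finset.mem_biUnion.mpr ⟨a', Finset.mem_biUnion.mpr ⟨b, Finset.mem_biUnion.mpr
        ⟨a, hT _ _ ha1, hT _ _ ha2⟩, hT _ _ (rel_symm f mt st hinv ha2')⟩,
        hT _ _ (rel_symm f mt st hinv ha1')⟩
    refine (Finset.card_le_card hsub).trans ?_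
    have h1 := hTc y
    have h2 : ((T y).biUnion T).card ≤ (54 * L) ^ 2 := by
      refine (Finset.card_biUnion_le_card_mul _ _ (54 * L) (fun x _ => hTc x)).trans ?_
      rw [pow_two]; exact Nat.mul_le_mul_right _ h1
    have h3 : (((T y).biUnion T).biUnion T).card ≤ (54 * L) ^ 3 := by
      refine (Finset.card_biUnion_le_card_mul _ _ (54 * L) (fun x _ => hTc x)).trans ?_
      rw [pow_succ]; exact Nat.mul_le_mul_right _ h2
    refine (Finset.card_biUnion_le_card_mul _ _ (54 * L) (fun x _ => hTc x)).trans ?_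
    rw [pow_succ]; exact Nat.mul_le_mul_right _ h3
  have hEc : ∀ y, ((E y).card : ℝ) ≤ (3 / 4) ^ G * Fintype.card (V → Fin (m ^ 2)) := by
    intro s
    by_cases hs : st s = s
    · have h1 := avoid_card hF hB hL hw hm hA hq hp (hwin s hs) G le_rfl (E s) (by
        intro ξ hξ g _ hg
        have := (Finset.mem_filter.mp hξ).2.2
        obtain ⟨i, j, hpair, _⟩ := hg
        exact this ⟨i, j, hpair⟩)
      have h2 : (4 : ℝ) ^ G * (E s).card ≤ 3 ^ G * Fintype.card (V → Fin (m ^ 2)) := by
        exact_mod_cast h1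
      rw [div_pow, div_mul_eq_mul_div, le_div_iff₀ (by positivity)]
      linarith
    · have : E s = ∅ := by
        apply Finset.filter_eq_empty_iff.mpr
        intro ξ _ h
        exact hs h.1
      rw [this]; simp; positivity
  have h4 : 4 * ((3 / 4 : ℝ) ^ G) * ((54 * L) ^ 4 : ℕ) ≤ 1 := by
    have h1 : (4 : ℝ) * 3 ^ G * (54 * L) ^ 4 ≤ 4 ^ G := by exact_mod_cast hG
    rw [div_pow]
    have h2 : (0 : ℝ) < 4 ^ G := by positivity
    push_cast
    rw [mul_div_assoc', div_mul_eq_mul_div, div_le_one h2]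
    exact h1
  have hL1 : (1 : ℝ) ≤ ((54 * L) ^ 4 : ℕ) := by
    have : 1 ≤ (54 * L) ^ 4 := Nat.one_le_pow _ _ (by omega)
    exact_mod_cast this
  have hq0 : (0 : ℝ) ≤ (3 / 4) ^ G := by positivity
  have hq1 : 4 * ((3 / 4 : ℝ) ^ G) ≤ 1 := by nlinarith
  have hlll := lll hdep hq0 hEc hD h4 (by linarith)
  have hpos : (0 : ℝ) < (1 - 2 * (3 / 4 : ℝ) ^ G) ^ Fintype.card V *
      Fintype.card (V → Fin (m ^ 2)) := by
    have h1 : (0 : ℝ) < 1 - 2 * (3 / 4 : ℝ) ^ G := by linarith
    have h2 : (0 : ℝ) < Fintype.card (V → Fin (m ^ 2)) := by exact_mod_cast Fintype.card_pos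
    positivity
  have hne : 0 < (avoid E Finset.univ).card := by exact_mod_cast lt_of_lt_of_le hpos hlll
  obtain ⟨ξ, hξ⟩ := Finset.card_pos.mp hne
  refine ⟨ξ, fun s hs => ?_⟩
  have h5 := (Finset.mem_filter.mp hξ).2 s (Finset.mem_univ s)
  by_contra hno
  exact h5 (Finset.mem_filter.mpr ⟨Finset.mem_univ _, hs, hno⟩)

end Pool.Agent.H32.Hom
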