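import Mathlib
import Pool.Agent.H32.Hom.Orient
import Pool.Agent.H32.Hom.Petersen
import Pool.Agent.H32.Hom.Words
import Pool.Agent.H32.Hom.BlockEx
import Pool.Agent.H32.Hom.Windows
import Pool.Agent.H32.Hom.Xi
import Pool.Agent.H32.Hom.Kappa
import Pool.Agent.H32.Hom.Colour
import Pool.Agent.H32.Hom.Numbers

/-!
# Two-homogeneous colourings of cubic graphs of large girth
-/

namespace Pool.Agent.H32.Hom

/-- A cubic graph of large girth with a perfect matching has a two-homogeneous colouring, with a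
bounded number of colours. -/
theorem main_desc : ∃ g k : ℕ, ∀ (V : Type) [Finite V] (G : SimpleGraph V)
    (f : Equiv.Perm V) (mt : V → V), Desc G f mt → (g : ℕ∞) ≤ G.egirth →
    ∃ c : V → Fin k, Homog f mt c := by
  obtain ⟨m, G, R, A, hm, hG, hR, hA, h1, h2, h3⟩ := exists_numbers
  set w := 4 * m * G with hw
  set L := w * R + 1 with hL
  have hm0 : 0 < m := by omega
  have hw0 : 0 < w := by positivity
  have hwR : 0 < w * R := by positivity
  have hLodd : Odd L := by
    refine ⟨2 * m * G * R, ?_⟩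
    rw [hL, hw]; ring
  have hL3 : 3 ≤ L := by
    have : L = 4 * (m * G * R) + 1 := by rw [hL, hw]; ring
    have : 0 < m * G * R := by positivity
    omega
  refine ⟨3 * (60 * L) + 4, m ^ 2 + (54 * L + 1), ?_⟩
  intro V _ Gr f mt hd hg
  have hF := far_of_girth Gr f mt hd (60 * L) hg
  have hF' : Far f mt (60 * (L : ℤ)) := by
    have : ((60 * L : ℕ) : ℤ) = 60 * (L : ℤ) := by push_cast; ring
    rw [← this]; exact hF
  obtain ⟨st, pos, hB⟩ := exists_blocks f L hLodd (by
    intro v k hk hk3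
    have := hF'.w0 v (k : ℤ) (by omega) (by rw [abs_of_nonneg (by omega)]; omega)
    simpa using this)
  obtain ⟨p, hp, hwin⟩ := exists_windows f mt st pos L w R A hF' hB (by omega) hw0 hR h3
  obtain ⟨ξ, hξ⟩ := exists_xi f mt st pos L w R A m G hF' hB (by omega) hw hm hA h1 h2 p hp hwin
  obtain ⟨κ, hκ1, hκ2, hκ3⟩ := kappa_of_xi f mt st pos L w p hF' hB ξ hξ
  obtain ⟨c, hc⟩ := homog_of_data f mt st pos L w R p hd.invol hB (by omega) hw0 hL3 hp κ
    hκ1 hκ2 hκ3
  have hφ : Function.Injective (finSumFinEquiv : Fin (m ^ 2) ⊕ Fin (54 * L + 1) ≃ _) :=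
    finSumFinEquiv.injective
  refine ⟨fun v => finSumFinEquiv (c v), ?_⟩
  intro v
  obtain ⟨h1, h2, h3⟩ := hc v
  refine ⟨fun h => h1 (hφ h), fun h => h2 (hφ h), ?_⟩
  rcases h3 with h | h | h
  · exact Or.inl ⟨congrArg finSumFinEquiv h.1, fun h' => h.2 (hφ h')⟩
  · exact Or.inr (Or.inl ⟨congrArg finSumFinEquiv h.1, fun h' => h.2 (hφ h')⟩)
  · exact Or.inr (Or.inr ⟨congrArg finSumFinEquiv h.1, fun h' => h.2 (hφ h')⟩)

theorem homog_spec {V C : Type} {G : SimpleGraph V} {f : Equiv.Perm V} {mt : V → V}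
    (hd : Desc G f mt) {c : V → C} (hc : Homog f mt c) :
    (∀ u v, G.Adj u v → c u ≠ c v) ∧ ∀ v, (c '' G.neighborSet v).ncard = 2 := by
  constructor
  · intro u v huv
    rcases (hd.nbr u v).mp huv with rfl | rfl | rfl
    · exact (hc u).1.symm
    · have := (hc (f.symm u)).1
      rwa [Equiv.apply_symm_apply] at this
    · exact (hc u).2.1.symm
  · intro v
    have hN : c '' G.neighborSet v = {c (f v), c (f.symm v), c (mt v)} := by
      have h1 : G.neighborSet v = {f v, f.symm v, mt v} := by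
        ext w
        simp only [SimpleGraph.mem_neighborSet, Set.mem_insert_iff, Set.mem_singleton_iff]
        exact hd.nbr v w
      rw [h1, Set.image_insert_eq, Set.image_insert_eq, Set.image_singleton]
    rw [hN]
    obtain ⟨_, _, h | h | h⟩ := hc v
    · rw [← h.1, Set.insert_eq_of_mem (Set.mem_insert _ _)]
      exact Set.ncard_pair h.2.symm
    · have : ({c (f v), c (f.symm v), c (mt v)} : Set C) = {c (f v), c (f.symm v)} := by
        rw [h.1, Set.pair_comm (c (f.symm v)) (c (f v)), Set.insert_eq_of_mem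
          (Set.mem_insert _ _)]
      rw [this]
      exact Set.ncard_pair h.2.symm
    · have : ({c (f v), c (f.symm v), c (mt v)} : Set C) = {c (f v), c (f.symm v)} := by
        rw [h.1, Set.pair_eq_singleton]
      rw [this]
      exact Set.ncard_pair h.2

/-- Cubic graphs of large girth with a perfect matching. -/
theorem main_matching : ∃ g k : ℕ, ∀ (V : Type) [Finite V] (G : SimpleGraph V),
    (∀ v : V, (G.neighborSet v).ncard = 3) → (∃ M : G.Subgraph, M.IsPerfectMatching) →
    (g : ℕ∞) ≤ G.egirth →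
    ∃ c : V → Fin k, (∀ u v : V, G.Adj u v → c u ≠ c v) ∧
      ∀ v : V, (c '' G.neighborSet v).ncard = 2 := by
  obtain ⟨g, k, h⟩ := main_desc
  refine ⟨g, k, ?_⟩
  rintro V _ G h3 ⟨M, hM⟩ hg
  obtain ⟨f, mt, hd⟩ := exists_desc G h3 M hM
  obtain ⟨c, hc⟩ := h V G f mt hd hg
  exact ⟨c, homog_spec hd hc⟩

/-- Bridgeless cubic graphs of large girth. -/
theorem main_bridgeless : ∃ g k : ℕ, ∀ (V : Type) [Finite V] (G : SimpleGraph V),
    (∀ v : V, (G.neighborSet v).ncard = 3) → (∀ e ∈ G.edgeSet, ¬ G.IsBridge e) →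
    (g : ℕ∞) ≤ G.egirth →
    ∃ c : V → Fin k, (∀ u v : V, G.Adj u v → c u ≠ c v) ∧
      ∀ v : V, (c '' G.neighborSet v).ncard = 2 := by
  obtain ⟨g, k, h⟩ := main_matching
  refine ⟨g, k, ?_⟩
  intro V _ G h3 hb hg
  exact h V G h3 (exists_perfectMatching G h3 hb) hg

end Pool.Agent.H32.Hom
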